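import Pool.Agent.Helper48.KV.GoalsJ
import Pool.Agent.Helper16.KV.F_CONTQ

/-!
# PROJECT KV (MP_66be51_an), packet CQ: continuity in time of weighted quadratic quantities
-/

open MeasureTheory Set Filter Topology

namespace Pool.Agent.Helper32.KV

open Pool.Agent.Helper33.KV Pool.Agent.Helper41.KV Pool.Agent.Helper48.KV

theorem cq : S_CQ := by
  intro t1 t2 b bt w wt k h12 hb hw hwt hd
  obtain ⟨C0, hC0⟩ := hb.bound 0
  obtain ⟨C, hC⟩ : ∃ C, C = max C0 1 := ⟨_, rfl⟩
  have hC1 : 1 ≤ C := hC ▸ le_max_right _ _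
  have hCp : 0 < C := by linarith
  have hbd : ∀ t ∈ Icc t1 t2, ∀ x, |b t x| ≤ C := by
    intro t ht x
    have := hC0 t ht x
    rw [iteratedDeriv_zero] at this
    exact this.trans (hC ▸ le_max_left _ _)
  have hc2 := Pool.Agent.Helper16.KV.C2_hinf hw hwt hd k
  have hcont : ContinuousOn (fun z : ℝ × ℝ => b z.1 z.2) (Icc t1 t2 ×ˢ univ) := by
    have := hb.cont 0
    simp only [iteratedDeriv_zero] at this
    exact this
  have h3 : Pool.Agent.Helper16.KV.C2 (fun t y => (b t y / C) * iteratedDeriv k (w t) y)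
      (Icc t1 t2) := by
    refine hc2.bdd (w := fun t y => b t y / C) ?_ ?_ ?_
    · intro t ht
      exact ((hb.smooth t ht).continuous).div_const C
    · intro t ht y
      rw [abs_div, abs_of_pos hCp, div_le_one hCp]
      exact hbd t ht y
    · intro s hs y
      have h4 : ContinuousOn (fun t : ℝ => b t y) (Icc t1 t2) := by
        have h5 : ContinuousOn (fun τ : ℝ => (τ, y)) (Icc t1 t2) :=
          (continuous_id.prodMk continuous_const).continuousOn
        exact hcont.comp h5 fun τ hτ => ⟨hτ, mem_univ _⟩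
      exact (h4 s hs).div_const C
  have h6 := (h3.bilin hc2).const_smul C
  refine h6.congr fun t ht => ?_
  simp only [Pi.smul_apply, smul_eq_mul]
  rw [← integral_const_mul]
  refine integral_congr_ae (Eventually.of_forall fun y => ?_)
  simp only
  field_simp

end Pool.Agent.Helper32.KV
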