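import Pool.Agent.Helper32.KV.JPoint

/-!
# PROJECT KV (MP_66be51_an), packet JSTEP, all inequalities at one time
-/

open MeasureTheory Set Filter Topology

namespace Pool.Agent.Helper32.KV

open Pool.Agent.Helper33.KV Pool.Agent.Helper41.KV Pool.Agent.Helper48.KV

/-- what is known at one time -/
structure At (α K κ r : ℝ) (z : ℝ → ℝ) (q k0 n : ℕ) (C : ℝ) (w wt : ℝ → ℝ → ℝ) (s Dv : ℝ) :
    Prop where
  nd : Nd α K s (w s) ≤ C * s ^ κ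
  h3 : ∀ k ∈ Finset.Ico k0 (k0 + n), 2 * Bk α K (Xq q k) (Lq k) s (w s) ≤
      (∫ x, tInt (pK α K (Xq q k) (Lq k)) (pKt α K (Xq q k) (Lq k)) zF zF (gq q k0 n)
        (gqt q k0 n) w wt s x)
        + C / 2 ^ (4 * k) + C / 2 ^ (20 * k) * (rho α s ^ 2 / lam α s ^ 3 + Dv / lam α s ^ 3)
        + C * (1 / 2 ^ (15 * k)
          + (∑ j ∈ Finset.Ico k (k0 + n),
              1 / 2 ^ (2 * j) * Bk α K (Xq q j) (Lq j) s (w s) ^ ((3 : ℝ) / 4))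
          + 1 / 2 ^ (20 * k) * ∑ j ∈ Finset.Ico k0 k,
              1 / 2 ^ (2 * j) * Bk α K (Xq q j) (Lq j) s (w s) ^ ((3 : ℝ) / 4))
  h4 : (∫ x, tInt (pJ α K κ r z) (pJt α K κ r z) (qJ α K κ r z) (qJt α K κ r z) (gq q k0 n)
        (gqt q k0 n) w wt s x) ≤
      C * (1 + s ^ (2 * κ - 1))
        + C * (s ^ (-κ) * (rho α s ^ 2 / lam α s ^ 3 + Dv / lam α s ^ 3))
        + C * ∑ j ∈ Finset.Ico k0 (k0 + n),
          (2 ^ (2 * j) * Bk α K (Xq q j) (Lq j) s (w s) ^ ((3 : ℝ) / 4)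
            + s ^ (-κ) * (1 / 2 ^ (15 * j)))
  h5 : |fun2 (pJ α K κ r z) (qJ α K κ r z) (gq q k0 n) w s - Jqf α K κ r z s (w s)|
      ≤ C * s ^ κ
  h6 : ∀ k ∈ Finset.Ico k0 (k0 + n),
      (∫ x, aK (Xq q k) (Lq k) x * cJ α K s x * w s x ^ 2) ≤ C / 2 ^ (4 * k)

theorem spow {s κ : ℝ} (hs : 0 < s) (hs1 : s ≤ 1) (hκ : 0 < κ) (hκ1 : κ ≤ 1 / 10) :
    0 < s ^ κ ∧ s ^ κ ≤ 1 ∧ s ^ (-κ) * s ^ κ = 1 ∧ 0 < s ^ (-κ) ∧ 1 ≤ s ^ (-κ) ∧
    s ^ (4 * κ) ≤ s ^ κ ∧ 0 < s ^ (4 * κ) ∧ s ≤ s ^ κ ∧ s ^ (2 * κ - 1) * s = (s ^ κ) ^ 2 ∧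
    0 < s ^ (2 * κ - 1) := by
  have a1 : 0 < s ^ κ := Real.rpow_pos_of_pos hs _
  have a2 : s ^ κ ≤ 1 := Real.rpow_le_one hs.le hs1 hκ.le
  have a3 : s ^ (-κ) * s ^ κ = 1 := by
    rw [← Real.rpow_add hs]; simp
  have a4 : 0 < s ^ (-κ) := Real.rpow_pos_of_pos hs _
  refine ⟨a1, a2, a3, a4, by nlinarith, ?_, Real.rpow_pos_of_pos hs _, ?_, ?_,
    Real.rpow_pos_of_pos hs _⟩
  · exact Real.rpow_le_rpow_of_exponent_ge hs hs1 (by linarith)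
  · have := Real.rpow_le_rpow_of_exponent_ge hs hs1 (by linarith : κ ≤ 1)
    rwa [Real.rpow_one] at this
  · rw [← Real.rpow_add_one hs.ne', ← Real.rpow_natCast, ← Real.rpow_mul hs.le]
    congr 1
    push_cast
    ring

theorem ar_sq {ρ a b : ℝ} (h : 0 < ρ) (h1 : ρ ≤ 7 * a) (ha : 0 < a) (hab : a ≤ b) (hb : b ≤ 1) :
    ρ ^ 2 ≤ 49 * b := by
  have a1 : ρ ^ 2 ≤ (7 * a) ^ 2 := pow_le_pow_left₀ h.le h1 2
  nlinarith

theorem ar_hq {κ H Q J : ℝ} (hκ1 : κ ≤ 1 / 10) (hH : 0 ≤ H) (hQ : 0 ≤ Q)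
    (h : (1 - κ) * (H + Q) ≤ J) (hJ : J ≤ 1) : H + Q ≤ 2 := by nlinarith

theorem ar_nr {C ρ Hn NR b : ℝ} (hC : 0 < C) (h : NR ≤ C * (ρ ^ 2 + Hn)) (h4 : Hn ≤ ρ ^ 4)
    (h0 : 0 < ρ) (h1 : ρ ≤ 1) (hb : ρ ^ 2 ≤ 49 * b) : NR ≤ 98 * C * b := by
  have h5 : ρ ^ 4 ≤ ρ ^ 2 := pow_le_pow_of_le_one h0.le h1 (by norm_num)
  have : C * (ρ ^ 2 + Hn) ≤ C * (98 * b) := mul_le_mul_of_nonneg_left (by linarith) hC.le
  linarith

theorem ar_small {C4 C5 CN sκ N : ℝ} (h4 : 1 ≤ C4) (h5 : 1 ≤ C5) (hCN : 0 < CN) (hs : 0 < sκ)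
    (hN : N ≤ CN * sκ) (h : (C4 + C5) * CN * sκ ≤ 1) : C4 * N ≤ 1 ∧ C5 * N ≤ 1 := by
  have a1 : 0 ≤ C5 * (CN * sκ) := by positivity
  have a2 : 0 ≤ C4 * (CN * sκ) := by positivity
  have a3 := mul_le_mul_of_nonneg_left hN (by linarith : 0 ≤ C4)
  have a4 := mul_le_mul_of_nonneg_left hN (by linarith : 0 ≤ C5)
  constructor <;> linarith

theorem ar_t1 {C4 CN N s H Q x sκ : ℝ} (h4 : 1 ≤ C4) (hs : 0 < s) (hx : 0 < x)
    (hN0 : 0 ≤ N) (hN : N ≤ CN * sκ) (hxs : x * s = sκ ^ 2) (hHQ : H + Q ≤ 2) (hH : 0 ≤ H)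
    (hQ : 0 ≤ Q) : C4 * ((1 + N ^ 2 / s) * (H + Q)) ≤ 2 * C4 * (1 + CN ^ 2) * (1 + x) := by
  have hN2 : N ^ 2 / s ≤ CN ^ 2 * x := by
    rw [div_le_iff₀ hs, mul_assoc, hxs, ← mul_pow]
    exact pow_le_pow_left₀ hN0 hN 2
  have a1 : (1 + N ^ 2 / s) * (H + Q) ≤ (1 + CN ^ 2 * x) * 2 :=
    mul_le_mul (by linarith) hHQ (by linarith) (by positivity)
  have a2 := mul_le_mul_of_nonneg_left a1 (by linarith : 0 ≤ C4)
  have a3 : 0 ≤ C4 * (CN ^ 2 + x) := by positivity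
  nlinarith

theorem ar_t2 {C4 C6 a l3 NR ρ2 Dv : ℝ} (h4 : 1 ≤ C4) (ha : 0 < a) (hl : 0 < l3)
    (h : NR ≤ C6 * (ρ2 + Dv)) :
    C4 * (a / l3 * NR) ≤ C4 * C6 * (a * (ρ2 / l3 + Dv / l3)) := by
  have a1 := mul_le_mul_of_nonneg_left h (by positivity : 0 ≤ a / l3)
  have a2 := mul_le_mul_of_nonneg_left a1 (by linarith : 0 ≤ C4)
  refine a2.trans (le_of_eq ?_)
  field_simp

theorem ar_t3 {C4 C8 I1 I2 a : ℝ} {F : Finset ℕ} {b : ℕ → ℝ} (h4 : 1 ≤ C4) (h8 : 1 ≤ C8)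
    (ha : 1 ≤ a)
    (x1 : I1 ≤ C8 * ∑ j ∈ F, (2 ^ (2 * j) * b j + 1 / 2 ^ (15 * j)))
    (x2 : I2 ≤ C8 * ∑ j ∈ F, (a * (1 / 2 ^ (15 * j)) + 2 ^ (2 * j) * b j)) :
    C4 * I1 + C4 * I2 ≤ 2 * C4 * C8 * ∑ j ∈ F, (2 ^ (2 * j) * b j + a * (1 / 2 ^ (15 * j))) := by
  have a1 : I1 + I2 ≤ C8 * ∑ j ∈ F, ((2 ^ (2 * j) * b j + 1 / 2 ^ (15 * j))
      + (a * (1 / 2 ^ (15 * j)) + 2 ^ (2 * j) * b j)) := by
    rw [Finset.sum_add_distrib, mul_add]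
    exact add_le_add x1 x2
  have a2 : ∑ j ∈ F, ((2 ^ (2 * j) * b j + 1 / 2 ^ (15 * j))
      + (a * (1 / 2 ^ (15 * j)) + 2 ^ (2 * j) * b j))
      ≤ 2 * ∑ j ∈ F, (2 ^ (2 * j) * b j + a * (1 / 2 ^ (15 * j))) := by
    rw [Finset.mul_sum]
    refine Finset.sum_le_sum fun j _ => ?_
    have h2 : (0 : ℝ) < 1 / 2 ^ (15 * j) := by positivity
    nlinarith
  have a3 := a1.trans (mul_le_mul_of_nonneg_left a2 (by linarith : 0 ≤ C8))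
  have a4 := mul_le_mul_of_nonneg_left a3 (by linarith : 0 ≤ C4)
  linarith

theorem ar_h3 {B T C C5 C6 C8 I5 ex l3 NR I3 I4 ρ2 Dv x4 x20 S sκ : ℝ}
    (hB : 2 * B ≤ T + C5 * I5 + C5 * (ex / l3 * NR) + C5 * I3 + 2 * I4) (h5 : 1 ≤ C5)
    (h8 : 1 ≤ C8) (h6 : 0 < C6) (hI5 : I5 ≤ C8 * (sκ * x4)) (hsκ0 : 0 ≤ sκ) (hsκ : sκ ≤ 1)
    (hx4 : 0 < x4)
    (hx20 : 0 < x20) (hl : 0 < l3) (hex : ex ≤ C8 * x20) (hNR : NR ≤ C6 * (ρ2 + Dv))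
    (hNR0 : 0 ≤ NR) (hI3 : 0 ≤ I3) (hI4 : 0 ≤ I4) (hI : I3 + I4 ≤ C8 * S) (hS : 0 ≤ S)
    (hρ2 : 0 ≤ ρ2) (hDv : 0 ≤ Dv)
    (hC : C5 * C8 + C5 * C8 * C6 + 2 * C5 * C8 ≤ C) :
    2 * B ≤ T + C * x4 + C * x20 * (ρ2 / l3 + Dv / l3) + C * S := by
  have b1 : C5 * I5 ≤ C5 * C8 * x4 := by
    have h1 : sκ * x4 ≤ x4 := by nlinarith
    have a2 := hI5.trans (mul_le_mul_of_nonneg_left h1 (by linarith : 0 ≤ C8))
    have a3 := mul_le_mul_of_nonneg_left a2 (by linarith : 0 ≤ C5)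
    linarith
  have b2 : C5 * (ex / l3 * NR) ≤ C5 * C8 * C6 * (x20 * (ρ2 / l3 + Dv / l3)) := by
    have a1 : ex / l3 * NR ≤ (C8 * x20) / l3 * (C6 * (ρ2 + Dv)) := by
      apply mul_le_mul _ hNR hNR0 (by positivity)
      exact div_le_div_of_nonneg_right hex hl.le
    have a2 := mul_le_mul_of_nonneg_left a1 (by linarith : 0 ≤ C5)
    refine a2.trans (le_of_eq ?_)
    field_simp
  have b3 : C5 * I3 + 2 * I4 ≤ 2 * C5 * C8 * S := by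
    have a1 : C5 * I3 + 2 * I4 ≤ 2 * C5 * (I3 + I4) := by nlinarith
    have a2 := mul_le_mul_of_nonneg_left hI (by linarith : 0 ≤ 2 * C5)
    linarith
  have p1 : 0 < C5 * C8 := by positivity
  have p2 : 0 < C5 * C8 * C6 := by positivity
  have hX : 0 ≤ x20 * (ρ2 / l3 + Dv / l3) := by positivity
  have c1 : C5 * C8 * x4 ≤ C * x4 := mul_le_mul_of_nonneg_right (by linarith) hx4.le
  have c2 : C5 * C8 * C6 * (x20 * (ρ2 / l3 + Dv / l3)) ≤ C * (x20 * (ρ2 / l3 + Dv / l3)) :=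
    mul_le_mul_of_nonneg_right (by linarith) hX
  have c3 : 2 * C5 * C8 * S ≤ C * S := mul_le_mul_of_nonneg_right (by linarith) hS
  linarith

theorem ar_h4 {T X C C4 C6 C8 CN t1 t2 i1 i2 x y S : ℝ} (h : T ≤ -X + t1 + t2 + i1 + i2)
    (hX : 0 ≤ X) (h1 : t1 ≤ 2 * C4 * (1 + CN ^ 2) * x) (h2 : t2 ≤ C4 * C6 * y)
    (h3 : i1 + i2 ≤ 2 * C4 * C8 * S) (hx : 0 ≤ x) (hy : 0 ≤ y) (hS : 0 ≤ S) (h4 : 1 ≤ C4)
    (h8 : 1 ≤ C8) (h6 : 0 < C6) (hC : 2 * C4 * (1 + CN ^ 2) + C4 * C6 + 2 * C4 * C8 ≤ C) :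
    T ≤ C * x + C * y + C * S := by
  have p1 : 0 < 2 * C4 * (1 + CN ^ 2) := by positivity
  have p2 : 0 < C4 * C6 := by positivity
  have p3 : 0 < 2 * C4 * C8 := by positivity
  have c1 : 2 * C4 * (1 + CN ^ 2) * x ≤ C * x := mul_le_mul_of_nonneg_right (by linarith) hx
  have c2 : C4 * C6 * y ≤ C * y := mul_le_mul_of_nonneg_right (by linarith) hy
  have c3 : 2 * C4 * C8 * S ≤ C * S := mul_le_mul_of_nonneg_right (by linarith) hS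
  linarith

theorem ar_h5 {C C3 C6 CN N s H Q a NR I sκ : ℝ} (hN0 : 0 ≤ N) (hN : N ≤ CN * sκ)
    (hI : I ≤ C3 * N ^ 2 * (Q + H + a * NR)) (hH : H + Q ≤ 2) (hQ : 0 ≤ Q) (hH0 : 0 ≤ H)
    (hs : 0 < s)
    (hss : s ≤ sκ) (hs0 : 0 < sκ) (hs1 : sκ ≤ 1) (ha : 0 < a) (hasκ : a * sκ = 1)
    (hNR : NR ≤ 98 * C6 * sκ) (hCN : CN = 2 + 98 * C6) (hC3 : 0 < C3) (hCNp : 0 < CN)
    (hC : 40 + 20 * C3 * CN ^ 3 ≤ C) : 20 * (s * H) + 20 * I ≤ C * sκ := by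
  have a1 : s * H ≤ 2 * sκ := by nlinarith
  have a2 : a * NR ≤ 98 * C6 := by
    have := mul_le_mul_of_nonneg_left hNR ha.le
    calc a * NR ≤ a * (98 * C6 * sκ) := this
      _ = 98 * C6 * (a * sκ) := by ring
      _ = 98 * C6 := by rw [hasκ, mul_one]
  have a3 : Q + H + a * NR ≤ CN := by rw [hCN]; linarith
  have a4 : N ^ 2 ≤ CN ^ 2 * sκ := by
    have h1 := pow_le_pow_left₀ hN0 hN 2
    have h5 : sκ ^ 2 ≤ sκ := by nlinarith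
    have h6 := mul_le_mul_of_nonneg_left h5 (sq_nonneg CN)
    have h7 : (CN * sκ) ^ 2 = CN ^ 2 * sκ ^ 2 := by ring
    linarith
  have a5 : C3 * N ^ 2 * (Q + H + a * NR) ≤ C3 * (CN ^ 2 * sκ) * CN := by
    have e1 : C3 * N ^ 2 * (Q + H + a * NR) ≤ C3 * N ^ 2 * CN :=
      mul_le_mul_of_nonneg_left a3 (by positivity)
    have e2 : C3 * N ^ 2 ≤ C3 * (CN ^ 2 * sκ) := mul_le_mul_of_nonneg_left a4 hC3.le
    exact e1.trans (mul_le_mul_of_nonneg_right e2 hCNp.le)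
  have a6 := hI.trans a5
  have c1 : (40 + 20 * C3 * CN ^ 3) * sκ ≤ C * sκ := mul_le_mul_of_nonneg_right hC hs0.le
  have e3 : C3 * (CN ^ 2 * sκ) * CN = C3 * CN ^ 3 * sκ := by ring
  linarith

theorem ar_h6 {C C8 I sκ p : ℝ} (h : I ≤ C8 * (sκ / p)) (hp : 0 < p) (h0 : 0 ≤ sκ)
    (h1 : sκ ≤ 1) (h8 : 1 ≤ C8) (hC : C8 ≤ C) : I ≤ C / p := by
  have a1 : sκ / p ≤ 1 / p := div_le_div_of_nonneg_right h1 hp.le
  have a2 := h.trans (mul_le_mul_of_nonneg_left a1 (by linarith : 0 ≤ C8))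
  have a3 : C8 * (1 / p) ≤ C * (1 / p) := mul_le_mul_of_nonneg_right hC (by positivity)
  rw [div_eq_mul_one_div]
  linarith

theorem exT {κ B : ℝ} (hκ : 0 < κ) (hB : 0 < B) : ∃ T : ℝ, 0 < T ∧ T ≤ 1 ∧
    ∀ s : ℝ, 0 < s → s ≤ T → B * s ^ κ ≤ 1 := by
  refine ⟨min 1 ((1 / B) ^ (1 / κ)), lt_min one_pos (Real.rpow_pos_of_pos (by positivity) _),
    min_le_left _ _, ?_⟩
  intro s hs hsT
  have h1 : s ≤ (1 / B) ^ (1 / κ) := hsT.trans (min_le_right _ _)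
  have h2 : s ^ κ ≤ ((1 / B) ^ (1 / κ)) ^ κ := Real.rpow_le_rpow hs.le h1 hκ.le
  rw [← Real.rpow_mul (by positivity), one_div_mul_cancel hκ.ne', Real.rpow_one] at h2
  calc B * s ^ κ ≤ B * (1 / B) := mul_le_mul_of_nonneg_left h2 hB.le
    _ = 1 := by field_simp

theorem point (hSCL : S_SCL) (hJW : S_JW) (hCUT : S_CUT) (hJFLD : S_JFLD) (hJWGN : S_JWGN)
    (hJINEQ : S_JINEQ) (hKINEQ : S_KINEQ) (hNEARB : S_NEARB) (hPKQ : S_PKQ) (hXJ1 : S_XJ1)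
    (hALG : S_ALG) (α K CV A : ℝ) (z : ℝ → ℝ) (q : ℕ) (h0 : 0 < α) (h1 : α < 1) (hK : 1 ≤ K)
    (hCV : 1 ≤ CV) (hq : 2 ≤ q) (hκα : 4 * kq q ≤ 2 * α / (4 * α + 3)) (hz : IsZ z A) :
    ∃ (C T0 : ℝ) (k00 : ℕ), 1 ≤ C ∧ 0 < T0 ∧ T0 ≤ 1 ∧ (4 * α + 3) * T0 ≤ 1 ∧
      (∀ (X L : ℝ), 1 ≤ X → 1 ≤ L → ∀ t1 t2, 0 < t1 → t1 ≤ t2 → t2 ≤ T0 →
        BInf (pK α K X L) (pKt α K X L) t1 t2) ∧
      (∀ r t1 t2, 0 < r → 0 < t1 → t1 ≤ t2 → t2 ≤ T0 →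
        BInf (pJ α K (kq q) r z) (pJt α K (kq q) r z) t1 t2 ∧
        BInf (qJ α K (kq q) r z) (qJt α K (kq q) r z) t1 t2) ∧
      (∀ t1 t2, 0 < t1 → t1 ≤ t2 → t2 ≤ T0 → BInf (cJ α K) (cJt α K) t1 t2) ∧
      (∀ s, 0 < s → s ≤ T0 → ∀ x, 0 ≤ cJ α K s x ∧ cJ α K s x ≤ 1) ∧
      ∀ (k0 n : ℕ) (s r : ℝ) (w wt' : ℝ → ℝ → ℝ) (V e : ℝ → ℝ), k00 ≤ k0 → 0 < s → s ≤ T0 →
      0 < r → r * (A + 2 * Xq q (k0 + n) + 100) ≤ s → HI (w s) →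
      (∀ x, srcS (gq q k0 n) w wt' s x = Sq q k0 n s x) →
      (∀ y, -2 ≤ sig α s + lam α s * y →
        Real.sqrt (lam α s) * w s (sig α s + lam α s * y) = V y + e y) →
      HI e → ContDiff ℝ (⊤ : ℕ∞) V →
      (∀ y, 1 / 4 ≤ wt K (rho α s) y → wt K (rho α s) y ≤ 3 / 4 →
        |V y| ≤ CV * rho α s ∧ |deriv V y| ≤ CV * rho α s ∧
          |deriv (deriv V) y| ≤ CV * rho α s) →
      Hn K (rho α s) e ≤ rho α s ^ 4 →
      Integrable (tInt (pJ α K (kq q) r z) (pJt α K (kq q) r z) (qJ α K (kq q) r z)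
        (qJt α K (kq q) r z) (gq q k0 n) (gqt q k0 n) w wt' s) →
      Integrable (fun x => dens (pJ α K (kq q) r z s x) (qJ α K (kq q) r z s x)
        (gq q k0 n s x) (w s x) (deriv (w s) x)) →
      (∀ k ∈ Finset.Ico k0 (k0 + n), Integrable (tInt (pK α K (Xq q k) (Lq k))
        (pKt α K (Xq q k) (Lq k)) zF zF (gq q k0 n) (gqt q k0 n) w wt' s)) →
      Jqf α K (kq q) r z s (w s) ≤ 1 →
      At α K (kq q) r z q k0 n C w wt' s (Dn K (rho α s) e) := by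
  have hκ := kq_pos hq
  have hκ1 := kq_le hq
  obtain ⟨κ, hκe⟩ : ∃ κ, κ = kq q := ⟨_, rfl⟩
  rw [← hκe] at hκ hκ1 hκα
  have hκ14 : κ ≤ 1 / 4 := by linarith
  obtain ⟨C1, T1, hC1, hT1, hT1', hT1α, hcut, hcutB⟩ := hCUT α K h0 h1 hK
  obtain ⟨C2, T2, hC2, hT2, hT2', hT2α, hjf⟩ := hJFLD α K κ A z h0 h1 hK hκ hκ14 hz
  obtain ⟨C3, T3, hC3, hT3, hT3', hjw⟩ := hJWGN α K κ A z h0 h1 hK hκ hκ14 hz
  obtain ⟨C4, T4, hC4, hT4, hT4', hji⟩ := hJINEQ α K κ A z h0 h1 hK hκ hκ14 hz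
  obtain ⟨C5, T5, hC5, hT5, hT5', hki⟩ := hKINEQ α K h0 h1 hK
  obtain ⟨C6, T6, hC6, hT6, hT6', hnb⟩ := hNEARB α K CV h0 h1 hK hCV
  obtain ⟨C7, hC7, hpk⟩ := hPKQ
  obtain ⟨C8, T8, hC8, hT8, hT8', hxj⟩ := hXJ1 α K A z q h0 h1 hK hq hz
  obtain ⟨CN, hCN⟩ : ∃ CN, CN = 2 + 98 * C6 := ⟨_, rfl⟩
  have hCNp : 0 < CN := by rw [hCN]; positivity
  obtain ⟨T9, hT9, hT9', hsm⟩ := exT hκ (B := (C4 + C5) * CN) (by positivity)
  obtain ⟨k00, hk00⟩ := pow_unbounded_of_one_lt C7 (one_lt_two (α := ℝ))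
  obtain ⟨T0, hT0⟩ : ∃ T0, T0 = min (min (min T1 T2) (min T3 T4))
    (min (min T5 T6) (min T8 T9)) := ⟨_, rfl⟩
  have t1 : T0 ≤ T1 := by
    rw [hT0]; exact (min_le_left _ _).trans ((min_le_left _ _).trans (min_le_left _ _))
  have t2 : T0 ≤ T2 := by
    rw [hT0]; exact (min_le_left _ _).trans ((min_le_left _ _).trans (min_le_right _ _))
  have t3 : T0 ≤ T3 := by
    rw [hT0]; exact (min_le_left _ _).trans ((min_le_right _ _).trans (min_le_left _ _))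
  have t4 : T0 ≤ T4 := by
    rw [hT0]; exact (min_le_left _ _).trans ((min_le_right _ _).trans (min_le_right _ _))
  have t5 : T0 ≤ T5 := by
    rw [hT0]; exact (min_le_right _ _).trans ((min_le_left _ _).trans (min_le_left _ _))
  have t6 : T0 ≤ T6 := by
    rw [hT0]; exact (min_le_right _ _).trans ((min_le_left _ _).trans (min_le_right _ _))
  have t8 : T0 ≤ T8 := by
    rw [hT0]; exact (min_le_right _ _).trans ((min_le_right _ _).trans (min_le_left _ _))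
  have t9 : T0 ≤ T9 := by
    rw [hT0]; exact (min_le_right _ _).trans ((min_le_right _ _).trans (min_le_right _ _))
  have hT0p : 0 < T0 := by
    rw [hT0]
    exact lt_min (lt_min (lt_min hT1 hT2) (lt_min hT3 hT4)) (lt_min (lt_min hT5 hT6)
      (lt_min hT8 hT9))
  have hT0α : (4 * α + 3) * T0 ≤ 1 := by
    refine le_trans ?_ hT1α
    exact mul_le_mul_of_nonneg_left t1 (by linarith)
  obtain ⟨C, hC⟩ : ∃ C, C = 1 + CN + (C5 * C8 + C5 * C8 * C6 + 2 * C5 * C8)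
    + (2 * C4 * (1 + CN ^ 2) + C4 * C6 + 2 * C4 * C8) + (40 + 20 * C3 * CN ^ 3) + C8 := ⟨_, rfl⟩
  refine ⟨C, T0, k00, ?_, hT0p, t1.trans hT1', hT0α, ?_, ?_, ?_, ?_, ?_⟩
  · rw [hC]
    have : 0 ≤ CN + (C5 * C8 + C5 * C8 * C6 + 2 * C5 * C8)
      + (2 * C4 * (1 + CN ^ 2) + C4 * C6 + 2 * C4 * C8) + (40 + 20 * C3 * CN ^ 3) + C8 := by
      positivity
    linarith
  · intro X L hX hL a b ha hab hb
    exact (hki X L hX hL).1 a b ha hab (hb.trans t5)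
  · intro r a b hr ha hab hb
    rw [← hκe]
    exact (hjf r hr).1 a b ha hab (hb.trans t2)
  · intro a b ha hab hb
    exact (hcutB a b ha hab (hb.trans t1)).2
  · intro s hs hsT x
    have := (hcut s hs (hsT.trans t1)).2.1 x
    unfold cJ
    exact ⟨pow_nonneg this.1 _, pow_le_one₀ this.1 this.2⟩
  intro k0 n s r w wt' V e hk0 hs hsT hr hrs hw hS hnear hHe hV hVb hHn iJ iD iK hJ1
  rw [← hκe] at iJ iD hJ1 ⊢
  have hs1 : s ≤ 1 := hsT.trans (t1.trans hT1')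
  have hαs : (4 * α + 3) * s ≤ 1 := by
    refine le_trans ?_ hT0α
    exact mul_le_mul_of_nonneg_left hsT (by linarith)
  obtain ⟨sg0, sg1, lm0, lm1, rh0, rh1, lmrh, lmeq, _, _, hrl, hrk⟩ := hSCL α s h0 h1 hs hαs
  have hρ := hrk κ hκ hκα
  -- powers of `s`
  obtain ⟨sκ0, sκ1, sinv, sinv0, sinv1, s4, s40, hss, s2κ, s2κ0⟩ := spow hs hs1 hκ hκ1
  have hρ2 : rho α s ^ 2 ≤ 49 * s ^ κ := ar_sq rh0 hρ s40 s4 sκ1
  -- the cut-off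
  obtain ⟨_, hd01, _⟩ := hcut s hs (hsT.trans t1)
  have hc0 : ∀ x, 0 ≤ cJ α K s x := fun x => by
    unfold cJ; exact pow_nonneg (hd01 x).1 _
  have hBc := (hcutB s s hs le_rfl (hsT.trans t1)).2
  have hss' : s ∈ Icc s s := ⟨le_rfl, le_rfl⟩
  have hcc : Continuous (cJ α K s) := (hBc.smooth s hss').continuous
  obtain ⟨hBp, hBq⟩ := (hjf r hr).1 s s hs le_rfl (hsT.trans t2)
  have hpc : Continuous (pJ α K κ r z s) := (hBp.smooth s hss').continuous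
  have hqc : Continuous (qJ α K κ r z s) := (hBq.smooth s hss').continuous
  obtain ⟨M1, hM1⟩ := hBp.bound 0
  obtain ⟨M2, hM2⟩ := hBq.bound 0
  have hM1' : ∀ x, |pJ α K κ r z s x| ≤ M1 := fun x => by
    have := hM1 s hss' x
    rwa [iteratedDeriv_zero] at this
  have hM2' : ∀ x, |qJ α K κ r z s x| ≤ M2 := fun x => by
    have := hM2 s hss' x
    rwa [iteratedDeriv_zero] at this
  have hz0 : ∀ x, 0 < z x := fun x => by have := hz.ge x; linarith only [this]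
  obtain ⟨_, _, _, _, nHc, nQc, hJq⟩ := hcqc hJW hz hκ hκ14 hr hs hc0 hcc hpc hqc hM1' hM2' hw
  have hHQ : Hc α K κ r z s (w s) + Qc α K κ r z s (w s) ≤ 2 := ar_hq hκ1 nHc nQc hJq hJ1
  -- the transition region
  have hHn1 : Hn K (rho α s) e ≤ 1 := hHn.trans (pow_le_one₀ rh0.le rh1)
  obtain ⟨hNR, hNR0⟩ := hnb s hs (hsT.trans t6) (w s) V e hw hHe hV hnear hVb hHn1
  have hNR0' : NR0f α K s (w s) ≤ 98 * C6 * s ^ κ := ar_nr hC6 hNR0 hHn rh0 rh1 hρ2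
  -- facts on the packets
  obtain ⟨hLX, hgo, hgi, _, hgH, _⟩ := hpk q k0 n hq
  have hx3 : ∀ x : ℝ, -1 ≤ x → ∀ j ∈ Finset.Ico k0 (k0 + n), x ∉ Iq q j := by
    intro x hx j _ hxj
    have := ((hLX j).2.2.2 x hxj).2.2
    linarith only [this, hx]
  have hg0 : ∀ x, -1 ≤ x → gq q k0 n s x = 0 := fun x hx => (hgo s x (hx3 x hx)).1
  have hgb : ∀ x, |gq q k0 n s x| ≤ 1 ∧ |gq q k0 n s x| ^ 3 * |deriv (gq q k0 n s) x| ≤ 1 ∧
      |gq q k0 n s x| ^ 3 * |gqt q k0 n s x| ≤ 1 := by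
    intro x
    by_cases hx : ∀ j ∈ Finset.Ico k0 (k0 + n), x ∉ Iq q j
    · obtain ⟨g1, g2, g3, _⟩ := hgo s x hx
      rw [g1, g2, g3]
      simp
    · push Not at hx
      obtain ⟨j, hj, hxj⟩ := hx
      obtain ⟨g1, g2, g3, _⟩ := hgi s x j hj hxj
      have hjk : k00 ≤ j := hk0.trans (Finset.mem_Ico.mp hj).1
      have p1 : (1 : ℝ) ≤ 2 ^ (11 * j) := one_le_pow₀ (by norm_num)
      have p2 : (1 : ℝ) ≤ 2 ^ (8 * j) := one_le_pow₀ (by norm_num)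
      have q1 : (1 : ℝ) / 2 ^ (11 * j) ≤ 1 := by
        rw [div_le_one (by positivity)]; exact p1
      have q2 : (1 : ℝ) / 2 ^ (8 * j) ≤ 1 := by
        rw [div_le_one (by positivity)]; exact p2
      have hg1 : |gq q k0 n s x| ≤ 1 := g1.trans q1
      have hg3 : |gq q k0 n s x| ^ 3 ≤ 1 := pow_le_one₀ (abs_nonneg _) hg1
      have hC7j : C7 / 2 ^ (10 * j) ≤ 1 := by
        rw [div_le_one (by positivity)]
        refine hk00.le.trans ?_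
        apply pow_le_pow_right₀ (by norm_num)
        omega
      refine ⟨hg1, ?_, ?_⟩
      · calc |gq q k0 n s x| ^ 3 * |deriv (gq q k0 n s) x| ≤ 1 * 1 :=
            mul_le_mul hg3 (g2.trans hC7j) (abs_nonneg _) (by norm_num)
          _ = 1 := by norm_num
      · calc |gq q k0 n s x| ^ 3 * |gqt q k0 n s x| ≤ 1 * 1 :=
            mul_le_mul hg3 (g3.trans q2) (abs_nonneg _) (by norm_num)
          _ = 1 := by norm_num
  obtain ⟨hHg, hHgt, hHS⟩ := hgH s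
  have hSf : srcS (gq q k0 n) w wt' s = Sq q k0 n s := funext hS
  have hHS' : HI (srcS (gq q k0 n) w wt' s) := by rw [hSf]; exact hHS
  -- XJ1
  obtain ⟨x1, x2, x3, x5⟩ := hxj k0 n r s hr hs (hsT.trans t8) hrs (w s) hw
    (by rw [← hκe]; exact hHQ)
  rw [← hκe] at x1 x2 x5
  have hNd : Nd α K s (w s) ≤ CN * s ^ κ := by
    refine x5.trans ?_
    have hHc2 : Hc α K κ r z s (w s) ≤ 2 := by linarith only [hHQ, nQc]
    have := mul_le_mul_of_nonneg_left hHc2 sκ0.le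
    rw [hCN]
    linarith only [this, hNR0']
  have hNd0 : 0 ≤ Nd α K s (w s) := integral_nonneg fun x => by positivity
  obtain ⟨hC4N, hC5N⟩ := ar_small hC4 hC5 hCNp sκ0 hNd (hsm s hs (hsT.trans t9))
  -- the inequality for the left functional
  have hJI := hji r s hr hs (hsT.trans t4) (gq q k0 n) (gqt q k0 n) w wt' hg0 hgb hHg hHgt hw
    hHS' iJ hC4N
  rw [hSf] at hJI
  have lm3 : 0 < lam α s ^ 3 := by positivity
  have hXJ : 0 ≤ XJ α K κ r z s (w s) := by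
    refine integral_nonneg fun x => ?_
    obtain ⟨_, _, _, _, _, _, _, _, _, _, Rpos, _⟩ := hJW κ r s (z x) hκ hκ14 hr hs (hz0 x)
    have := hc0 x
    positivity
  have hB0 : ∀ j, 0 ≤ Bk α K (Xq q j) (Lq j) s (w s) := by
    intro j
    refine integral_nonneg fun x => ?_
    have hL : 0 < Lq j := by have := (hLX j).1; linarith only [this]
    have a1 : 0 ≤ bK (Xq q j) (Lq j) x := ph1_nonneg hL one_pos
    have := hc0 x
    positivity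
  have hsum0 : 0 ≤ ∑ j ∈ Finset.Ico k0 (k0 + n),
      (2 ^ (2 * j) * Bk α K (Xq q j) (Lq j) s (w s) ^ ((3 : ℝ) / 4)
        + s ^ (-κ) * (1 / 2 ^ (15 * j))) := by
    refine Finset.sum_nonneg fun j _ => ?_
    have := Real.rpow_nonneg (hB0 j) ((3 : ℝ) / 4)
    positivity
  have hDv0 : 0 ≤ Dn K (rho α s) e := Dn_nonneg (by linarith only [hK]) rh0 e
  have hRD0 : 0 ≤ rho α s ^ 2 / lam α s ^ 3 + Dn K (rho α s) e / lam α s ^ 3 := by positivity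
  have hCa : C5 * C8 + C5 * C8 * C6 + 2 * C5 * C8 ≤ C := by
    have : 0 ≤ 1 + CN + (2 * C4 * (1 + CN ^ 2) + C4 * C6 + 2 * C4 * C8)
      + (40 + 20 * C3 * CN ^ 3) + C8 := by positivity
    linarith only [this, hC]
  have hCb : 2 * C4 * (1 + CN ^ 2) + C4 * C6 + 2 * C4 * C8 ≤ C := by
    have : 0 ≤ 1 + CN + (C5 * C8 + C5 * C8 * C6 + 2 * C5 * C8)
      + (40 + 20 * C3 * CN ^ 3) + C8 := by positivity
    linarith only [this, hC]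
  have hCc : 40 + 20 * C3 * CN ^ 3 ≤ C := by
    have : 0 ≤ 1 + CN + (C5 * C8 + C5 * C8 * C6 + 2 * C5 * C8)
      + (2 * C4 * (1 + CN ^ 2) + C4 * C6 + 2 * C4 * C8) + C8 := by positivity
    linarith only [this, hC]
  have hCd : C8 ≤ C := by
    have : 0 ≤ 1 + CN + (C5 * C8 + C5 * C8 * C6 + 2 * C5 * C8)
      + (2 * C4 * (1 + CN ^ 2) + C4 * C6 + 2 * C4 * C8) + (40 + 20 * C3 * CN ^ 3) := by
      positivity
    linarith only [this, hC]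
  have hCe : CN ≤ C := by
    have : 0 ≤ 1 + (C5 * C8 + C5 * C8 * C6 + 2 * C5 * C8)
      + (2 * C4 * (1 + CN ^ 2) + C4 * C6 + 2 * C4 * C8) + (40 + 20 * C3 * CN ^ 3) + C8 := by
      positivity
    linarith only [this, hC]
  refine ⟨?_, ?_, ?_, ?_, ?_⟩
  · exact hNd.trans (mul_le_mul_of_nonneg_right hCe sκ0.le)
  · intro k hk
    obtain ⟨y1, y2, y3⟩ := x3 k hk
    have hL1 := (hLX k).1
    have hX1 : 1 ≤ Xq q k := by
      have := (hLX k).2.1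
      linarith only [this, hL1]
    have hKI := (hki (Xq q k) (Lq k) hX1 hL1).2 s hs (hsT.trans t5) (gq q k0 n) (gqt q k0 n) w wt'
      hg0 (fun x => ⟨(hgb x).1, (hgb x).2.1⟩) hHg hw hHS' (iK k hk) hC5N
    rw [hSf] at hKI
    have ha0 : ∀ x, 0 ≤ aK (Xq q k) (Lq k) x := fun x => (wt_pos one_pos).1.le
    have I3n : 0 ≤ ∫ x, aK (Xq q k) (Lq k) x * cJ α K s x *
        (|deriv (gq q k0 n s) x| * |w s x| ^ 5) := by
      refine integral_nonneg fun x => ?_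
      have := ha0 x
      have := hc0 x
      positivity
    have I4n : 0 ≤ ∫ x, aK (Xq q k) (Lq k) x * cJ α K s x * (|Sq q k0 n s x| * |w s x|) := by
      refine integral_nonneg fun x => ?_
      have := ha0 x
      have := hc0 x
      positivity
    have hS0 : 0 ≤ 1 / 2 ^ (15 * k) + (∑ j ∈ Finset.Ico k (k0 + n),
              1 / 2 ^ (2 * j) * Bk α K (Xq q j) (Lq j) s (w s) ^ ((3 : ℝ) / 4))
            + 1 / 2 ^ (20 * k) * ∑ j ∈ Finset.Ico k0 k,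
              1 / 2 ^ (2 * j) * Bk α K (Xq q j) (Lq j) s (w s) ^ ((3 : ℝ) / 4) := by
      have a1 : ∀ F : Finset ℕ, 0 ≤ ∑ j ∈ F,
          1 / 2 ^ (2 * j) * Bk α K (Xq q j) (Lq j) s (w s) ^ ((3 : ℝ) / 4) := fun F =>
        Finset.sum_nonneg fun j _ => by
          have := Real.rpow_nonneg (hB0 j) ((3 : ℝ) / 4)
          positivity
      have a2 := a1 (Finset.Ico k (k0 + n))
      have a3 := a1 (Finset.Ico k0 k)
      positivity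
    have a0 : 0 ≤ NRf α K s (w s) := by
      refine integral_nonneg fun x => ?_
      have i1 : 0 ≤ ind α K s x := by
        unfold ind
        exact Set.indicator_nonneg (fun _ _ => zero_le_one) x
      have i2 : 0 ≤ nrI α s (w s) x := by
        unfold nrI
        positivity
      positivity
    have d1 : C / 2 ^ (4 * k) = C * (1 / 2 ^ (4 * k)) := by ring
    have d2 : C / 2 ^ (20 * k) = C * (1 / 2 ^ (20 * k)) := by ring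
    rw [d1, d2]
    have y2' : (∫ x, aK (Xq q k) (Lq k) x * cJ α K s x * w s x ^ 2)
        ≤ C8 * (s ^ κ * (1 / 2 ^ (4 * k))) := by
      rw [← hκe] at y2
      rw [mul_one_div]
      exact y2
    have y3' : Real.exp (-((Xq q k - 1) / Lq k)) ≤ C8 * (1 / 2 ^ (20 * k)) := by
      rw [mul_one_div]
      exact y3
    exact ar_h3 hKI hC5 hC8 hC6 y2' sκ0.le sκ1 (by positivity) (by positivity) lm3 y3' hNR a0
      I3n I4n y1 hS0 (sq_nonneg _) hDv0 hCa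
  · exact ar_h4 hJI hXJ (ar_t1 hC4 hs s2κ0 hNd0 hNd s2κ hHQ nHc nQc)
      (ar_t2 hC4 sinv0 lm3 hNR) (ar_t3 hC4 hC8 sinv1 x1 x2) (by positivity) (by positivity)
      hsum0 hC4 hC8 hC6 hCb
  · obtain ⟨_, _, i6, b6⟩ := hjw r s hr hs (hsT.trans t3) (w s) hw
    have hfd := fdiff hJW hALG hz hκ hκ14 hr hs hc0 hcc hpc hqc hM1' hM2' hw
      (fun x => (hgb x).1) iD i6
    exact hfd.trans (ar_h5 hNd0 hNd b6 hHQ nQc nHc hs hss sκ0 sκ1 sinv0 sinv hNR0' hCN hC3 hCNp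
      hCc)
  · intro k hk
    obtain ⟨_, y2, _⟩ := x3 k hk
    rw [← hκe] at y2
    exact ar_h6 y2 (by positivity) sκ0.le sκ1 hC8 hCd

end Pool.Agent.Helper32.KV
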