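import Pool.Agent.Helper32.KV.JCore
import Pool.Agent.Helper32.KV.JAt

/-!
# PROJECT KV (MP_66be51_an), packet JSTEP: the bootstrap step of the left functional
-/

open MeasureTheory Set Filter Topology

namespace Pool.Agent.Helper32.KV

open Pool.Agent.Helper33.KV Pool.Agent.Helper41.KV Pool.Agent.Helper48.KV
open Pool.Agent.Helper26.KV (HInf_wflux HInf_sub hinf_mono)

theorem binf_zF (t1 t2 : ℝ) : BInf zF zF t1 t2 := by
  have h : ∀ (k : ℕ) (t x : ℝ), iteratedDeriv k (zF t) x = 0 := by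
    intro k t x
    have : zF t = fun _ => (0 : ℝ) := rfl
    rw [this, iteratedDeriv_const]
    split_ifs <;> rfl
  refine ⟨fun t _ => contDiff_const, fun k => ?_, fun k => ⟨0, fun t _ x => by rw [h]; simp⟩,
    fun t _ x => ?_, ?_, ⟨0, fun t _ x => by simp [zF]⟩⟩
  · simp only [h]
    exact continuousOn_const
  · exact hasDerivWithinAt_const _ _ _
  · exact continuousOn_const

theorem fun2_zF (p U e : ℝ → ℝ → ℝ) (t : ℝ) : fun2 p zF U e t = ∫ x, p t x * e t x ^ 2 := by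
  unfold fun2
  refine integral_congr_ae (Eventually.of_forall fun x => ?_)
  simp [dens, zF]

theorem sig_cont {α τ t : ℝ} (h0 : 0 < α) (hτ : 0 < τ) : ContinuousOn (sig α) (Icc τ t) := by
  unfold sig
  refine ContinuousOn.rpow_const (by fun_prop) fun s hs => Or.inl ?_
  have : 0 < s := lt_of_lt_of_le hτ hs.1
  positivity

theorem sig_pos' {α s : ℝ} (h0 : 0 < α) (hs : 0 < s) : 0 < sig α s := by
  unfold sig
  positivity

theorem lam_cont {α τ t : ℝ} (h0 : 0 < α) (hτ : 0 < τ) : ContinuousOn (lam α) (Icc τ t) := by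
  unfold lam
  exact (sig_cont h0 hτ).rpow_const fun s hs =>
    Or.inl (sig_pos' h0 (lt_of_lt_of_le hτ hs.1)).ne'

theorem rho_cont {α τ t : ℝ} (h0 : 0 < α) (hτ : 0 < τ) : ContinuousOn (rho α) (Icc τ t) := by
  unfold rho
  exact (sig_cont h0 hτ).rpow_const fun s hs =>
    Or.inl (sig_pos' h0 (lt_of_lt_of_le hτ hs.1)).ne'

theorem htd_sub {u ut g gt : ℝ → ℝ → ℝ} {t1 t2 : ℝ} (hu : HInf u t1 t2) (hut : HInf ut t1 t2)
    (hg : HInf g t1 t2) (hgt : HInf gt t1 t2) (h1 : HasTimeDeriv u ut t1 t2)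
    (h2 : HasTimeDeriv g gt t1 t2) :
    HasTimeDeriv (fun t x => u t x - g t x) (fun t x => ut t x - gt t x) t1 t2 := by
  intro k t ht x
  have key : ∀ {a b : ℝ → ℝ}, ContDiff ℝ (⊤ : ℕ∞) a → ContDiff ℝ (⊤ : ℕ∞) b →
      iteratedDeriv k (fun x => a x - b x) x = iteratedDeriv k a x - iteratedDeriv k b x := by
    intro a b ha hb
    exact iteratedDeriv_fun_sub (ha.of_le (by exact_mod_cast le_top)).contDiffAt
      (hb.of_le (by exact_mod_cast le_top)).contDiffAt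
  rw [key (hut.smooth t ht) (hgt.smooth t ht)]
  refine ((h1 k t ht x).sub (h2 k t ht x)).congr (fun s hs => ?_) ?_
  · exact key (hu.smooth s hs) (hg.smooth s hs)
  · exact key (hu.smooth t ht) (hg.smooth t ht)

theorem htd_mono {u ut : ℝ → ℝ → ℝ} {t1 t2 s1 s2 : ℝ} (h : HasTimeDeriv u ut t1 t2)
    (h1 : t1 ≤ s1) (h2 : s2 ≤ t2) : HasTimeDeriv u ut s1 s2 := by
  have hs : Icc s1 s2 ⊆ Icc t1 t2 := Icc_subset_Icc h1 h2
  exact fun k t ht x => (h k t (hs ht) x).mono hs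

theorem bK_cont {X L : ℝ} : Continuous (bK X L) := by
  unfold bK ph1
  have := wt_cont L 1 one_pos
  fun_prop

theorem fun2_pK (α K X L : ℝ) (U e : ℝ → ℝ → ℝ) (t : ℝ) :
    fun2 (pK α K X L) zF U e t = ∫ x, aK X L x * cJ α K t x * e t x ^ 2 := by
  rw [fun2_zF]
  rfl

theorem binf_t {p pt : ℝ → ℝ → ℝ} {t1 t2 : ℝ} (h : BInf p pt t1 t2) (x : ℝ) :
    ContinuousOn (fun s => p s x) (Icc t1 t2) := by
  have h5 : ContinuousOn (fun τ' : ℝ => (τ', x)) (Icc t1 t2) :=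
    (continuous_id.prodMk continuous_const).continuousOn
  have h6 := h.cont 0
  simp only [iteratedDeriv_zero] at h6
  exact h6.comp h5 fun τ' hτ' => ⟨hτ', mem_univ _⟩

theorem Bk_cont {c ct w wt : ℝ → ℝ → ℝ} {t1 t2 X L : ℝ} (hc : BInf c ct t1 t2)
    (hc01 : ∀ s ∈ Icc t1 t2, ∀ x, 0 ≤ c s x ∧ c s x ≤ 1) (hL : 1 ≤ L) (hw : HInf w t1 t2)
    (hwt : HInf wt t1 t2) (hd : HasTimeDeriv w wt t1 t2) :
    ContinuousOn (fun t => ∫ x, bK X L x * c t x * deriv (w t) x ^ 2) (Icc t1 t2) := by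
  have := wcont (M := 1) (W := fun s x => bK X L x * c s x) 1 ?_ ?_ ?_ hw hwt hd
  · simp only [iteratedDeriv_one] at this
    exact this
  · intro s hs
    exact bK_cont.mul (hc.smooth s hs).continuous
  · intro s hs x
    obtain ⟨c0, c1⟩ := hc01 s hs x
    have b0 : 0 ≤ bK X L x := ph1_nonneg (by linarith only [hL]) one_pos
    have b1 : bK X L x ≤ 1 := ph1_le hL one_pos
    rw [abs_of_nonneg (mul_nonneg b0 c0)]
    exact mul_le_one₀ b1 c0 c1
  · intro x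
    exact continuousOn_const.mul (binf_t hc x)

theorem int_nn {a b c : ℝ → ℝ} (ha : ∀ x, 0 ≤ a x) (hb : ∀ x, 0 ≤ b x) :
    0 ≤ ∫ x, a x * b x * c x ^ 2 :=
  integral_nonneg fun x => mul_nonneg (mul_nonneg (ha x) (hb x)) (sq_nonneg _)

theorem jstep (hSTAT : S_STAT) (hTIME : S_TIME) (hSCL : S_SCL) (hJW : S_JW) (hCUT : S_CUT)
    (hJFLD : S_JFLD) (hJWGN : S_JWGN) (hJINEQ : S_JINEQ) (hKINEQ : S_KINEQ) (hNEARB : S_NEARB)
    (hPKQ : S_PKQ) (hXJ1 : S_XJ1) (hLAM : S_LAM) (hDW : S_DW) (hCQ : S_CQ) (hALG : S_ALG) :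
    S_JSTEP := by
  intro α K CV A z q h0 h1 hK hCV hq hκα hz
  have hκ := kq_pos hq
  have hκ1 := kq_le hq
  obtain ⟨C, T1, k1, hC, hT1, hT1', hT1α, hpK, hpJ, hcJ, hc01, hpt⟩ := point hSCL hJW hCUT hJFLD
    hJWGN hJINEQ hKINEQ hNEARB hPKQ hXJ1 hALG α K CV A z q h0 h1 hK hCV hq hκα hz
  obtain ⟨CD, hCD, hdw⟩ := hDW α (kq q) h0 h1 hκ hκα
  obtain ⟨C', hC', hcore⟩ := core hLAM (kq q) C CD hκ hκ1 hC hCD
  obtain ⟨T2, hT2, hT2', hsm⟩ := exT hκ (B := 8 * C') (by positivity)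
  obtain ⟨k2, hk2⟩ := exists_pow_lt_of_lt_one (by positivity : 0 < 1 / (8 * C'))
    (by norm_num : (1 / 2 : ℝ) < 1)
  obtain ⟨C7, hC7, hpk⟩ := hPKQ
  refine ⟨C, min T1 T2, max k1 k2, by linarith, lt_min hT1 hT2, (min_le_left _ _).trans hT1',
    ?_⟩
  intro k0 n τ T r u V hk0 hτ hτT hTT0 hr hrX hu hV hDc hDI hJ0
  have hTT1 : T ≤ T1 := hTT0.trans (min_le_left _ _)
  have hTT2 : T ≤ T2 := hTT0.trans (min_le_right _ _)
  obtain ⟨hLX, hgo, hgi, hgT, hgH, hsrc⟩ := hpk q k0 n hq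
  obtain ⟨hgI, hgtI, hgd⟩ := hgT τ T hτT.le
  obtain ⟨w, hwdef⟩ : ∃ w : ℝ → ℝ → ℝ, w = fun t x => u t x - gq q k0 n t x := ⟨_, rfl⟩
  obtain ⟨wt', hwtdef⟩ : ∃ w : ℝ → ℝ → ℝ, w = fun t x => -deriv (flux (u t)) x - gqt q k0 n t x :=
    ⟨_, rfl⟩
  have hwT : ∀ t, (fun x => u t x - gq q k0 n t x) = w t := fun t => by rw [hwdef]
  have hw : HInf w τ T := by rw [hwdef]; exact HInf_sub hu.hinf hgI
  have hwt : HInf wt' τ T := by rw [hwtdef]; exact HInf_sub (HInf_wflux hu.hinf) hgtI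
  have hd : HasTimeDeriv w wt' τ T := by
    rw [hwdef, hwtdef]
    exact htd_sub hu.hinf (HInf_wflux hu.hinf) hgI hgtI hu.eqn hgd
  have hHIw : ∀ s ∈ Icc τ T, HI (w s) := fun s hs => ⟨hw.smooth s hs, fun k => hw.memLp k s hs⟩
  have hS : ∀ s ∈ Icc τ T, ∀ x, srcS (gq q k0 n) w wt' s x = Sq q k0 n s x := by
    intro s hs x
    rw [hwdef, hwtdef]
    exact hsrc u τ T hu s hs x
  simp only [hwT] at hJ0 ⊢
  obtain ⟨hBp, hBq⟩ := hpJ r τ T hr hτ hτT.le hTT1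
  have hJcont : ContinuousOn (fun t => Jqf α K (kq q) r z t (w t)) (Icc τ T) := by
    have c1 := hCQ τ T _ _ w wt' 0 hτT.le hBp hw hwt hd
    have c2 := hCQ τ T _ _ w wt' 1 hτT.le hBq hw hwt hd
    refine (c1.add c2).congr fun t ht => ?_
    simp only [iteratedDeriv_zero, iteratedDeriv_one]
    unfold Jqf
    obtain ⟨M1, hM1⟩ := hBp.bound 0
    obtain ⟨M2, hM2⟩ := hBq.bound 0
    refine integral_add (int_bdd (C := M1) (hBp.smooth t ht).continuous (fun x => ?_)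
      (HI_sq (hHIw t ht))) (int_bdd (C := M2) (hBq.smooth t ht).continuous (fun x => ?_)
      (HI_dsq (hHIw t ht)))
    · have := hM1 t ht x
      rwa [iteratedDeriv_zero] at this
    · have := hM2 t ht x
      rwa [iteratedDeriv_zero] at this
  refine ⟨hJcont, ?_⟩
  intro t ht hJt
  have htT : t ≤ T := ht.2
  have hτt : τ ≤ t := ht.1
  have ht1 : t ≤ T1 := htT.trans hTT1
  have hsub : Icc τ t ⊆ Icc τ T := Icc_subset_Icc le_rfl htT
  have hw' := hinf_mono hw le_rfl htT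
  have hwt2 := hinf_mono hwt le_rfl htT
  have hd' := htd_mono hd le_rfl htT
  obtain ⟨hgI', hgtI', hgd'⟩ := hgT τ t hτt
  obtain ⟨hBp', hBq'⟩ := hpJ r τ t hr hτ hτt ht1
  have hcB := hcJ τ t hτ hτt ht1
  obtain ⟨iJ, iD, iI, eJ⟩ := hTIME τ t _ _ _ _ (gq q k0 n) (gqt q k0 n) w wt' hτt hBp' hBq'
    hgI' hgtI' hgd' hw' hwt2 hd'
  have hL1 : ∀ k, 1 ≤ Lq k := fun k => (hLX k).1
  have hX1 : ∀ k, 1 ≤ Xq q k := fun k => by
    have h5 := (hLX k).2.1
    have h6 := hL1 k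
    linarith only [h5, h6]
  have hK' : ∀ k, _ := fun k => hTIME τ t _ _ zF zF (gq q k0 n) (gqt q k0 n) w wt' hτt
    (hpK (Xq q k) (Lq k) (hX1 k) (hL1 k) τ t hτ hτt ht1) (binf_zF τ t)
    hgI' hgtI' hgd' hw' hwt2 hd'
  have hspos : ∀ s ∈ Icc τ t, 0 < s := fun s hs => lt_of_lt_of_le hτ hs.1
  have hs1 : ∀ s ∈ Icc τ t, s ≤ T1 := fun s hs => hs.2.trans ht1
  have hAt : ∀ s ∈ Icc τ t, At α K (kq q) r z q k0 n C w wt' s
      (Dn K (rho α s) (fun y => inn α u s y - V s y)) := by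
    intro s hs
    obtain ⟨hV1, hV2, hV3, hV4⟩ := hV s (hsub hs)
    refine hpt k0 n s r w wt' (V s) (fun y => inn α u s y - V s y)
      ((le_max_left _ _).trans hk0) (hspos s hs) (hs1 s hs) hr (hrX.trans hs.1) (hHIw s (hsub hs))
      (hS s (hsub hs)) ?_ hV2 hV1 hV3 hV4 (iJ s hs) (iD s hs) (fun k _ => (hK' k).1 s hs)
      (hJt s hs)
    intro y hy
    have hg : gq q k0 n s (sig α s + lam α s * y) = 0 := by
      refine (hgo s _ ?_).1
      intro j _ hxj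
      have := ((hLX j).2.2.2 _ hxj).2.2
      linarith only [this, hy]
    rw [hwdef]
    simp only [hg, sub_zero, inn]
    ring
  have hαT : (4 * α + 3) * T ≤ 1 :=
    (mul_le_mul_of_nonneg_left hTT1 (by linarith only [h0])).trans hT1α
  have hsc : ∀ s ∈ Icc τ T, _ := fun s hs => hSCL α s h0 h1 (lt_of_lt_of_le hτ hs.1)
    ((mul_le_mul_of_nonneg_left hs.2 (by linarith only [h0] : (0 : ℝ) ≤ 4 * α + 3)).trans hαT)
  have hlam : ∀ s ∈ Icc τ T, 0 < lam α s := fun s hs => (hsc s hs).2.2.1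
  have hrho : ∀ s ∈ Icc τ T, 0 < rho α s ∧ rho α s ≤ 1 := fun s hs =>
    ⟨(hsc s hs).2.2.2.2.1, (hsc s hs).2.2.2.2.2.1⟩
  have hDcont : ContinuousOn (fun s => Dn K (rho α s) (fun y => inn α u s y - V s y)
      / lam α s ^ 3) (Icc τ T) :=
    hDc.div ((lam_cont h0 hτ).pow 3) fun s hs => by
      have := hlam s hs
      positivity
  have hD0 : ∀ s ∈ Icc τ T, 0 ≤ Dn K (rho α s) (fun y => inn α u s y - V s y)
      / lam α s ^ 3 := fun s hs => by
    have h5 := hlam s hs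
    have h6 := Dn_nonneg (by linarith only [hK] : 0 < K) (hrho s hs).1
      (fun y => inn α u s y - V s y)
    positivity
  have hfin := hcore k0 n τ t (fun s => fun2 (pJ α K (kq q) r z) (qJ α K (kq q) r z)
      (gq q k0 n) w s) (fun s => Jqf α K (kq q) r z s (w s))
    (fun s => ∫ x, tInt (pJ α K (kq q) r z) (pJt α K (kq q) r z) (qJ α K (kq q) r z)
      (qJt α K (kq q) r z) (gq q k0 n) (gqt q k0 n) w wt' s x)
    (fun k s => Bk α K (Xq q k) (Lq k) s (w s))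
    (fun k s => ∫ x, tInt (pK α K (Xq q k) (Lq k)) (pKt α K (Xq q k) (Lq k)) zF zF (gq q k0 n)
        (gqt q k0 n) w wt' s x)
    (fun k s => ∫ x, aK (Xq q k) (Lq k) x * cJ α K s x * w s x ^ 2)
    (fun s => Dn K (rho α s) (fun y => inn α u s y - V s y) / lam α s ^ 3)
    (fun s => rho α s ^ 2 / lam α s ^ 3) hτ hτt (ht1.trans hT1') eJ iI ?_
    (fun k _ => (hK' k).2.2.1) ?_ ?_ (hDcont.mono hsub) (fun s hs => hD0 s (hsub hs)) ?_ ?_
    ?_ ?_ ?_ ?_ ?_ ?_ ?_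
  · have ht0 := hspos t ⟨hτt, le_rfl⟩
    refine ⟨?_, (hAt t ⟨hτt, le_rfl⟩).nd⟩
    have e1 := hsm t ht0 (htT.trans hTT2)
    have e2 : (1 / 2 : ℝ) ^ k0 ≤ (1 / 2) ^ k2 :=
      pow_le_pow_of_le_one (by norm_num) (by norm_num) ((le_max_right _ _).trans hk0)
    have e3 : C' * (1 / 2) ^ k0 ≤ 1 / 8 := by
      calc C' * (1 / 2) ^ k0 ≤ C' * (1 / (8 * C')) :=
            mul_le_mul_of_nonneg_left (e2.trans hk2.le) hC'.le
        _ = 1 / 8 := by field_simp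
    linarith only [hfin, hJ0, e1, e3]
  · intro k _
    have h5 := (hK' k).2.2.2
    rw [fun2_pK, fun2_pK] at h5
    exact h5
  · intro k
    exact Bk_cont hcB (fun s hs => hc01 s (hspos s hs) (hs1 s hs)) (hL1 k) hw' hwt2 hd'
  · intro j s hs
    exact int_nn (fun x => ph1_nonneg (by have h5 := hL1 j; linarith only [h5]) one_pos)
      (fun x => (hc01 s (hspos s hs) (hs1 s hs) x).1)
  · exact ((rho_cont h0 hτ).pow 2).div ((lam_cont h0 hτ).pow 3) fun s hs => by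
      have := hlam s (hsub hs)
      positivity
  · intro s hs
    have hl := hlam s (hsub hs)
    have hrh := (hrho s (hsub hs)).1
    refine ⟨by positivity, ?_⟩
    obtain ⟨_, _, _, _, _, _, _, _, _, _, hrl, hrk⟩ := hsc s (hsub hs)
    have hs0 := hspos s hs
    have e1 : rho α s ^ 2 / lam α s ^ 3 = rho α s * (1 / ((4 * α + 3) * s)) := by
      rw [← hrl]; ring
    rw [e1]
    have e2 : 1 / ((4 * α + 3) * s) ≤ 1 / s := by
      apply one_div_le_one_div_of_le hs0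
      nlinarith only [h0, hs0]
    have e3 : s ^ (4 * kq q - 1) = s ^ (4 * kq q) * (1 / s) := by
      rw [Real.rpow_sub_one hs0.ne']; ring
    rw [e3]
    calc rho α s * (1 / ((4 * α + 3) * s)) ≤ (7 * s ^ (4 * kq q)) * (1 / s) :=
          mul_le_mul (hrk _ hκ hκα) e2 (by positivity) (by positivity)
      _ = _ := by ring
  · refine (hDI t ht).trans ?_
    exact pow_le_one₀ (hrho t ht).1.le (hrho t ht).2
  · exact hdw τ T _ hτ hτT.le hαT hDcont hD0 hDI t ht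
  · intro k hk s hs
    exact (hAt s hs).h3 k hk
  · intro s hs
    exact (hAt s hs).h4
  · exact (hAt t ⟨hτt, le_rfl⟩).h5
  · exact (hAt τ ⟨le_rfl, hτt⟩).h5
  · intro k hk
    refine ⟨(hAt t ⟨hτt, le_rfl⟩).h6 k hk, ?_⟩
    exact int_nn (fun x => (wt_pos one_pos).1.le)
      (fun x => (hc01 τ hτ (hs1 τ ⟨le_rfl, hτt⟩) x).1)

end Pool.Agent.Helper32.KV
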