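import Pool.Agent.Helper48.KV.GoalsJ

/-!
# PROJECT KV (MP_66be51_an), packet JSTEP, real variable part
-/

open MeasureTheory Set Filter Topology

namespace Pool.Agent.Helper32.KV

open Pool.Agent.Helper33.KV Pool.Agent.Helper41.KV Pool.Agent.Helper48.KV

theorem int_pow34 {a b : ℝ} {B : ℝ → ℝ} (hab : a ≤ b) (h1 : b - a ≤ 1)
    (hB : ContinuousOn B (Icc a b)) (h0 : ∀ s ∈ Icc a b, 0 ≤ B s) :
    (∫ s in a..b, B s ^ ((3 : ℝ) / 4)) ≤ (∫ s in a..b, B s) ^ ((3 : ℝ) / 4) := by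
  have hBi : IntervalIntegrable B volume a b := by
    apply ContinuousOn.intervalIntegrable
    rwa [uIcc_of_le hab]
  have hc : ContinuousOn (fun s => B s ^ ((3 : ℝ) / 4)) (Icc a b) :=
    hB.rpow_const fun s _ => Or.inr (by norm_num)
  have hci : IntervalIntegrable (fun s => B s ^ ((3 : ℝ) / 4)) volume a b := by
    apply ContinuousOn.intervalIntegrable
    rwa [uIcc_of_le hab]
  obtain ⟨m, hm⟩ : ∃ m, m = ∫ s in a..b, B s ^ ((3 : ℝ) / 4) := ⟨_, rfl⟩
  obtain ⟨c, hcc⟩ : ∃ c, c = ∫ s in a..b, B s := ⟨_, rfl⟩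
  rw [← hm, ← hcc]
  have hc0 : 0 ≤ c := by
    rw [hcc]
    exact intervalIntegral.integral_nonneg hab h0
  have hm0 : 0 ≤ m := by
    rw [hm]
    exact intervalIntegral.integral_nonneg hab fun s hs => Real.rpow_nonneg (h0 s hs) _
  have key : ∀ l : ℝ, 0 < l → m * l ^ ((1 : ℝ) / 4) ≤ 3 / 4 * c + 1 / 4 * l := by
    intro l hl
    have h2 : m * l ^ ((1 : ℝ) / 4) = ∫ s in a..b, B s ^ ((3 : ℝ) / 4) * l ^ ((1 : ℝ) / 4) := by
      rw [intervalIntegral.integral_mul_const, hm]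
    have h3 : (∫ s in a..b, B s ^ ((3 : ℝ) / 4) * l ^ ((1 : ℝ) / 4))
        ≤ ∫ s in a..b, (3 / 4 * B s + 1 / 4 * l) := by
      refine intervalIntegral.integral_mono_on hab (hci.mul_const _)
        ((hBi.const_mul _).add intervalIntegrable_const) fun s hs => ?_
      exact Real.geom_mean_le_arith_mean2_weighted (by norm_num) (by norm_num) (h0 s hs) hl.le
        (by norm_num)
    have h4 : (∫ s in a..b, (3 / 4 * B s + 1 / 4 * l)) = 3 / 4 * c + (b - a) * (1 / 4 * l) := by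
      rw [intervalIntegral.integral_add (hBi.const_mul _) intervalIntegrable_const,
        intervalIntegral.integral_const_mul, intervalIntegral.integral_const, hcc, smul_eq_mul]
    rw [h2]
    refine h3.trans ?_
    rw [h4]
    nlinarith
  rcases eq_or_lt_of_le hc0 with hz | hpos
  · rw [← hz, Real.zero_rpow (by norm_num)]
    by_contra hcon
    push Not at hcon
    have h5 := key (m ^ ((4 : ℝ) / 3)) (Real.rpow_pos_of_pos hcon _)
    rw [← Real.rpow_mul hm0, ← hz] at h5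
    have h6 : m * m ^ ((4 : ℝ) / 3 * (1 / 4)) = m ^ ((4 : ℝ) / 3) := by
      rw [← Real.rpow_one_add' hm0 (by norm_num)]
      norm_num
    rw [h6] at h5
    have h7 : 0 < m ^ ((4 : ℝ) / 3) := Real.rpow_pos_of_pos hcon _
    linarith
  · have h5 := key c hpos
    have h6 : 0 < c ^ ((1 : ℝ) / 4) := Real.rpow_pos_of_pos hpos _
    have h7 : c ^ ((3 : ℝ) / 4) * c ^ ((1 : ℝ) / 4) = c := by
      rw [← Real.rpow_add hpos]
      norm_num
    have h8 : m * c ^ ((1 : ℝ) / 4) ≤ c ^ ((3 : ℝ) / 4) * c ^ ((1 : ℝ) / 4) := by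
      rw [h7]; linarith
    exact le_of_mul_le_mul_right h8 h6

theorem int_rpow {a b p : ℝ} (ha : 0 < a) (_hab : a ≤ b) (hp : 0 < p) :
    (∫ s in a..b, s ^ (p - 1)) ≤ b ^ p / p := by
  rw [integral_rpow (Or.inl (by linarith))]
  have h1 : p - 1 + 1 = p := by ring
  rw [h1]
  have h2 : 0 ≤ a ^ p := Real.rpow_nonneg ha.le _
  gcongr
  linarith

theorem sum_geom (k0 n : ℕ) : ∑ j ∈ Finset.Ico k0 (k0 + n), (1 / 2 : ℝ) ^ j ≤ 2 * (1 / 2) ^ k0 := by
  have h : ∀ n : ℕ, ∑ j ∈ Finset.Ico k0 (k0 + n), (1 / 2 : ℝ) ^ j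
      = 2 * (1 / 2) ^ k0 - 2 * (1 / 2) ^ (k0 + n) := by
    intro n
    induction n with
    | zero => simp
    | succ n ih =>
      rw [← Nat.add_assoc, Finset.sum_Ico_succ_top (by omega), ih, pow_succ]
      ring
  rw [h n]
  have : (0 : ℝ) < (1 / 2) ^ (k0 + n) := by positivity
  linarith

theorem core (hLAM : S_LAM) (κ C CD : ℝ) (hκ : 0 < κ) (hκ1 : κ ≤ 1 / 10) (hC : 1 ≤ C)
    (hCD : 0 < CD) :
    ∃ C' : ℝ, 0 < C' ∧ ∀ (k0 n : ℕ) (τ t : ℝ) (J Jq F : ℝ → ℝ) (B G A : ℕ → ℝ → ℝ)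
      (D R : ℝ → ℝ), 0 < τ → τ ≤ t → t ≤ 1 →
      (J t - J τ = ∫ s in τ..t, F s) → IntervalIntegrable F volume τ t →
      (∀ k ∈ Finset.Ico k0 (k0 + n), A k t - A k τ = ∫ s in τ..t, G k s) →
      (∀ k ∈ Finset.Ico k0 (k0 + n), IntervalIntegrable (G k) volume τ t) →
      (∀ k, ContinuousOn (B k) (Icc τ t)) → (∀ j, ∀ s ∈ Icc τ t, 0 ≤ B j s) →
      ContinuousOn D (Icc τ t) → (∀ s ∈ Icc τ t, 0 ≤ D s) →
      ContinuousOn R (Icc τ t) → (∀ s ∈ Icc τ t, 0 ≤ R s ∧ R s ≤ 7 * s ^ (4 * κ - 1)) →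
      (∫ s in τ..t, D s) ≤ 1 → (∫ s in τ..t, s ^ (-κ) * D s) ≤ CD * t ^ κ →
      (∀ k ∈ Finset.Ico k0 (k0 + n), ∀ s ∈ Icc τ t, 2 * B k s ≤ G k s + C / 2 ^ (4 * k)
        + C / 2 ^ (20 * k) * (R s + D s)
        + C * (1 / 2 ^ (15 * k)
          + (∑ j ∈ Finset.Ico k (k0 + n), 1 / 2 ^ (2 * j) * B j s ^ ((3 : ℝ) / 4))
          + 1 / 2 ^ (20 * k) * ∑ j ∈ Finset.Ico k0 k, 1 / 2 ^ (2 * j) * B j s ^ ((3 : ℝ) / 4))) →
      (∀ s ∈ Icc τ t, F s ≤ C * (1 + s ^ (2 * κ - 1)) + C * (s ^ (-κ) * (R s + D s))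
        + C * ∑ j ∈ Finset.Ico k0 (k0 + n),
          (2 ^ (2 * j) * B j s ^ ((3 : ℝ) / 4) + s ^ (-κ) * (1 / 2 ^ (15 * j)))) →
      |J t - Jq t| ≤ C * t ^ κ → |J τ - Jq τ| ≤ C * τ ^ κ →
      (∀ k ∈ Finset.Ico k0 (k0 + n), A k t ≤ C / 2 ^ (4 * k) ∧ 0 ≤ A k τ) →
      Jq t ≤ Jq τ + C' * t ^ κ + C' * (1 / 2) ^ k0 := by
  obtain ⟨C9, hC9, hlam⟩ := hLAM (C * (4 + 7 / (4 * κ))) (by positivity)
  refine ⟨C * (3 + 1 / (2 * κ) + 7 / (3 * κ) + CD) + C * (2 * C9 ^ ((3 : ℝ) / 4) + 4), by positivity,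
    ?_⟩
  intro k0 n τ t J Jq F B G A D R hτ hτt ht1 hJ hFi hA hGi hBc hB0 hDc hD0 hRc hR hD1 hD2 h3 h4
    h5t h5τ h6
  have ht0 : 0 < t := by linarith
  have hs0 : ∀ s ∈ Icc τ t, 0 < s := fun s hs => lt_of_lt_of_le hτ hs.1
  have hII : ∀ {f : ℝ → ℝ}, ContinuousOn f (Icc τ t) → IntervalIntegrable f volume τ t := by
    intro f hf
    apply ContinuousOn.intervalIntegrable
    rwa [uIcc_of_le hτt]
  have hpc : ∀ p : ℝ, ContinuousOn (fun s : ℝ => s ^ p) (Icc τ t) := fun p =>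
    continuousOn_id.rpow_const fun s hs => Or.inl (hs0 s hs).ne'
  have hB34 : ∀ k, ContinuousOn (fun s => B k s ^ ((3 : ℝ) / 4)) (Icc τ t) := fun k =>
    (hBc k).rpow_const fun s _ => Or.inr (by norm_num)
  have hdt : t - τ ≤ 1 := by linarith
  have hbnn : ∀ j, 0 ≤ ∫ s in τ..t, B j s := fun j =>
    intervalIntegral.integral_nonneg hτt (hB0 j)
  have hb34 : ∀ j, (∫ s in τ..t, B j s ^ ((3 : ℝ) / 4)) ≤ (∫ s in τ..t, B j s) ^ ((3 : ℝ) / 4) :=
    fun j => int_pow34 hτt hdt (hBc j) (hB0 j)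
  have hRint : (∫ s in τ..t, R s) ≤ 7 / (4 * κ) := by
    calc (∫ s in τ..t, R s) ≤ ∫ s in τ..t, 7 * s ^ (4 * κ - 1) :=
          intervalIntegral.integral_mono_on hτt (hII hRc) (hII (continuousOn_const.mul (hpc _)))
            fun s hs => (hR s hs).2
      _ = 7 * ∫ s in τ..t, s ^ (4 * κ - 1) := intervalIntegral.integral_const_mul _ _
      _ ≤ 7 * (t ^ (4 * κ) / (4 * κ)) := by
          gcongr
          exact int_rpow hτ hτt (by positivity)
      _ ≤ 7 * (1 / (4 * κ)) := by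
          gcongr
          exact Real.rpow_le_one ht0.le ht1 (by positivity)
      _ = _ := by ring
  -- the Kato sums
  have hlamb := hlam k0 n (fun j => ∫ s in τ..t, B j s) hbnn (by
    intro k hk
    have i1 : ContinuousOn (fun s => ∑ j ∈ Finset.Ico k (k0 + n),
        1 / 2 ^ (2 * j) * B j s ^ ((3 : ℝ) / 4)) (Icc τ t) :=
      continuousOn_finsetSum _ fun j _ => continuousOn_const.mul (hB34 j)
    have i2 : ContinuousOn (fun s => ∑ j ∈ Finset.Ico k0 k,
        1 / 2 ^ (2 * j) * B j s ^ ((3 : ℝ) / 4)) (Icc τ t) :=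
      continuousOn_finsetSum _ fun j _ => continuousOn_const.mul (hB34 j)
    have hsum : ∀ s' : Finset ℕ, (∫ s in τ..t, ∑ j ∈ s', 1 / 2 ^ (2 * j) * B j s ^ ((3 : ℝ) / 4))
        ≤ ∑ j ∈ s', 1 / 2 ^ (2 * j) * (∫ s in τ..t, B j s) ^ ((3 : ℝ) / 4) := by
      intro s'
      have hj : ∀ j ∈ s', IntervalIntegrable (fun s => 1 / 2 ^ (2 * j) * B j s ^ ((3 : ℝ) / 4))
          volume τ t := fun j _ => hII (continuousOn_const.mul (hB34 j))
      rw [intervalIntegral.integral_finsetSum hj]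
      refine Finset.sum_le_sum fun j _ => ?_
      rw [intervalIntegral.integral_const_mul]
      exact mul_le_mul_of_nonneg_left (hb34 j) (by positivity)
    have hmono : (∫ s in τ..t, 2 * B k s) ≤ ∫ s in τ..t, (G k s + (C / 2 ^ (4 * k)
        + C / 2 ^ (20 * k) * (R s + D s)
        + C * (1 / 2 ^ (15 * k)
          + (∑ j ∈ Finset.Ico k (k0 + n), 1 / 2 ^ (2 * j) * B j s ^ ((3 : ℝ) / 4))
          + 1 / 2 ^ (20 * k) * ∑ j ∈ Finset.Ico k0 k, 1 / 2 ^ (2 * j) * B j s ^ ((3 : ℝ) / 4))))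
        := by
      refine intervalIntegral.integral_mono_on hτt (hII (continuousOn_const.mul (hBc k)))
        ((hGi k hk).add (hII ?_)) fun s hs => ?_
      · fun_prop
      · have := h3 k hk s hs
        linarith
    rw [intervalIntegral.integral_const_mul, intervalIntegral.integral_add (hGi k hk)
      (hII (by fun_prop)), ← hA k hk,
      intervalIntegral.integral_add (hII (by fun_prop)) (hII (by fun_prop)),
      intervalIntegral.integral_add (hII (by fun_prop)) (hII (by fun_prop)),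
      intervalIntegral.integral_const, intervalIntegral.integral_const_mul,
      intervalIntegral.integral_add (hII hRc) (hII hDc),
      intervalIntegral.integral_const_mul,
      intervalIntegral.integral_add (hII (by fun_prop)) (hII (by fun_prop)),
      intervalIntegral.integral_add (hII (by fun_prop)) (hII i1),
      intervalIntegral.integral_const, intervalIntegral.integral_const_mul] at hmono
    simp only [smul_eq_mul] at hmono
    have hs1 := hsum (Finset.Ico k (k0 + n))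
    have hs2 := hsum (Finset.Ico k0 k)
    obtain ⟨hA1, hA2⟩ := h6 k hk
    obtain ⟨S1, hS1⟩ : ∃ S1, S1 = ∑ j ∈ Finset.Ico k (k0 + n),
      1 / 2 ^ (2 * j) * (∫ s in τ..t, B j s) ^ ((3 : ℝ) / 4) := ⟨_, rfl⟩
    obtain ⟨S2, hS2⟩ : ∃ S2, S2 = ∑ j ∈ Finset.Ico k0 k,
      1 / 2 ^ (2 * j) * (∫ s in τ..t, B j s) ^ ((3 : ℝ) / 4) := ⟨_, rfl⟩
    rw [← hS1] at hs1 ⊢
    rw [← hS2] at hs2 ⊢
    have hS1n : 0 ≤ S1 := by
      rw [hS1]
      exact Finset.sum_nonneg fun j _ => mul_nonneg (by positivity)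
        (Real.rpow_nonneg (hbnn j) _)
    have hS2n : 0 ≤ S2 := by
      rw [hS2]
      exact Finset.sum_nonneg fun j _ => mul_nonneg (by positivity)
        (Real.rpow_nonneg (hbnn j) _)
    have e15 : (1 : ℝ) / 2 ^ (15 * k) ≤ 1 / 2 ^ (4 * k) := by
      gcongr
      · norm_num
      · omega
    have e20 : (1 : ℝ) / 2 ^ (20 * k) ≤ 1 / 2 ^ (4 * k) := by
      gcongr
      · norm_num
      · omega
    have e4 : (0 : ℝ) < 1 / 2 ^ (4 * k) := by positivity
    have e20p : (0 : ℝ) < 1 / 2 ^ (20 * k) := by positivity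
    have e15p : (0 : ℝ) < 1 / 2 ^ (15 * k) := by positivity
    have hκ7 : 0 < 7 / (4 * κ) := by positivity
    obtain ⟨x4, hx4⟩ : ∃ x : ℝ, x = 1 / 2 ^ (4 * k) := ⟨_, rfl⟩
    obtain ⟨x15, hx15⟩ : ∃ x : ℝ, x = 1 / 2 ^ (15 * k) := ⟨_, rfl⟩
    obtain ⟨x20, hx20⟩ : ∃ x : ℝ, x = 1 / 2 ^ (20 * k) := ⟨_, rfl⟩
    have d4 : C / 2 ^ (4 * k) = C * x4 := by rw [hx4]; ring
    have d20 : C / 2 ^ (20 * k) = C * x20 := by rw [hx20]; ring
    rw [d4, d20, ← hx15, ← hx20] at hmono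
    rw [d4] at hA1
    rw [← hx4, ← hx20]
    rw [← hx15, ← hx4] at e15
    rw [← hx20, ← hx4] at e20
    rw [← hx4] at e4
    rw [← hx20] at e20p
    rw [← hx15] at e15p
    have hCp : 0 < C := by linarith
    have hRD : (∫ s in τ..t, R s) + (∫ s in τ..t, D s) ≤ 7 / (4 * κ) + 1 := add_le_add hRint hD1
    have g1 : C * x20 * ((∫ s in τ..t, R s) + (∫ s in τ..t, D s))
        ≤ C * x4 * (7 / (4 * κ) + 1) := by
      apply mul_le_mul (mul_le_mul_of_nonneg_left e20 hCp.le) hRD _ (by positivity)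
      exact add_nonneg (intervalIntegral.integral_nonneg hτt fun s hs => (hR s hs).1)
        (intervalIntegral.integral_nonneg hτt hD0)
    have g2 : (t - τ) * (C * x4) ≤ C * x4 := by
      have : 0 ≤ C * x4 := by positivity
      nlinarith
    have g3 : (t - τ) * x15 ≤ x4 := by nlinarith
    have g4 : x20 * (∫ s in τ..t, ∑ j ∈ Finset.Ico k0 k, 1 / 2 ^ (2 * j) * B j s ^ ((3 : ℝ) / 4))
        ≤ x20 * S2 := mul_le_mul_of_nonneg_left hs2 e20p.le
    have g5 : C * ((t - τ) * x15 + (∫ s in τ..t, ∑ j ∈ Finset.Ico k (k0 + n),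
        1 / 2 ^ (2 * j) * B j s ^ ((3 : ℝ) / 4))
        + x20 * (∫ s in τ..t, ∑ j ∈ Finset.Ico k0 k, 1 / 2 ^ (2 * j) * B j s ^ ((3 : ℝ) / 4)))
        ≤ C * (x4 + S1 + x20 * S2) := by
      apply mul_le_mul_of_nonneg_left _ hCp.le
      linarith
    have hb2 : 2 * (∫ s in τ..t, B k s) ≤ C * x4 * (4 + 7 / (4 * κ)) + C * (S1 + x20 * S2) := by
      linarith
    have hbk := hbnn k
    have g6 : C * (S1 + x20 * S2) ≤ C * (4 + 7 / (4 * κ)) * (S1 + x20 * S2) := by
      have : 0 ≤ S1 + x20 * S2 := by positivity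
      apply mul_le_mul_of_nonneg_right _ this
      nlinarith
    show (∫ s in τ..t, B k s) ≤ C * (4 + 7 / (4 * κ)) * (x4 + S1 + x20 * S2)
    nlinarith)
  -- the left functional
  have hkey : (∫ s in τ..t, F s) ≤ C * (1 + 1 / (2 * κ) + 7 / (3 * κ) + CD) * t ^ κ
      + C * (2 * C9 ^ ((3 : ℝ) / 4) + 4) * (1 / 2) ^ k0 := by
    have i3 : ContinuousOn (fun s => ∑ j ∈ Finset.Ico k0 (k0 + n),
          (2 ^ (2 * j) * B j s ^ ((3 : ℝ) / 4) + s ^ (-κ) * (1 / 2 ^ (15 * j)))) (Icc τ t) :=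
      continuousOn_finsetSum _ fun j _ => (continuousOn_const.mul (hB34 j)).add
        ((hpc _).mul continuousOn_const)
    have hp1 := hpc (2 * κ - 1)
    have hp2 := hpc (-κ)
    have hj4 : ∀ j ∈ Finset.Ico k0 (k0 + n), IntervalIntegrable (fun s => 2 ^ (2 * j)
        * B j s ^ ((3 : ℝ) / 4) + s ^ (-κ) * (1 / 2 ^ (15 * j))) volume τ t := fun j _ =>
      hII ((continuousOn_const.mul (hB34 j)).add (hp2.mul continuousOn_const))
    have hmono : (∫ s in τ..t, F s) ≤ ∫ s in τ..t, (C * (1 + s ^ (2 * κ - 1))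
        + C * (s ^ (-κ) * R s + s ^ (-κ) * D s) + C * ∑ j ∈ Finset.Ico k0 (k0 + n),
          (2 ^ (2 * j) * B j s ^ ((3 : ℝ) / 4) + s ^ (-κ) * (1 / 2 ^ (15 * j)))) := by
      refine intervalIntegral.integral_mono_on hτt hFi (hII ?_) fun s hs => ?_
      · fun_prop
      · have := h4 s hs
        linarith
    rw [intervalIntegral.integral_add (hII (by fun_prop)) (hII (by fun_prop)),
      intervalIntegral.integral_add (hII (by fun_prop)) (hII (by fun_prop)),
      intervalIntegral.integral_const_mul, intervalIntegral.integral_const_mul,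
      intervalIntegral.integral_const_mul,
      intervalIntegral.integral_add (hII (by fun_prop)) (hII hp1),
      intervalIntegral.integral_add (hII (by fun_prop)) (hII (by fun_prop)),
      intervalIntegral.integral_const, smul_eq_mul, mul_one,
      intervalIntegral.integral_finsetSum hj4] at hmono
    have htκ : 0 < t ^ κ := Real.rpow_pos_of_pos ht0 _
    have hle : ∀ p, κ ≤ p → t ^ p ≤ t ^ κ := fun p hp =>
      Real.rpow_le_rpow_of_exponent_ge ht0 ht1 hp
    have a1 : t - τ ≤ t ^ κ := by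
      have := hle 1 (by linarith)
      rw [Real.rpow_one] at this
      linarith
    have a2 : (∫ s in τ..t, s ^ (2 * κ - 1)) ≤ 1 / (2 * κ) * t ^ κ := by
      refine (int_rpow hτ hτt (by positivity : 0 < 2 * κ)).trans ?_
      rw [div_mul_eq_mul_div, one_mul]
      exact div_le_div_of_nonneg_right (hle (2 * κ) (by linarith)) (by positivity)
    have a3 : (∫ s in τ..t, s ^ (-κ) * R s) ≤ 7 / (3 * κ) * t ^ κ := by
      calc (∫ s in τ..t, s ^ (-κ) * R s) ≤ ∫ s in τ..t, 7 * s ^ (3 * κ - 1) := by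
            refine intervalIntegral.integral_mono_on hτt (hII (hp2.mul hRc))
              (hII (continuousOn_const.mul (hpc _))) fun s hs => ?_
            have hs' := hs0 s hs
            have e1 : s ^ (3 * κ - 1) = s ^ (-κ) * s ^ (4 * κ - 1) := by
              rw [← Real.rpow_add hs']
              congr 1
              ring
            have e2 := mul_le_mul_of_nonneg_left (hR s hs).2 (Real.rpow_nonneg hs'.le (-κ))
            rw [e1]
            linarith
        _ = 7 * ∫ s in τ..t, s ^ (3 * κ - 1) := intervalIntegral.integral_const_mul _ _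
        _ ≤ 7 * (t ^ (3 * κ) / (3 * κ)) := by
            gcongr
            exact int_rpow hτ hτt (by positivity)
        _ ≤ 7 * (t ^ κ / (3 * κ)) := by
            apply mul_le_mul_of_nonneg_left _ (by norm_num : (0 : ℝ) ≤ 7)
            exact div_le_div_of_nonneg_right (hle (3 * κ) (by linarith)) (by positivity)
        _ = _ := by ring
    have a4 : ∑ j ∈ Finset.Ico k0 (k0 + n), (∫ s in τ..t,
          (2 ^ (2 * j) * B j s ^ ((3 : ℝ) / 4) + s ^ (-κ) * (1 / 2 ^ (15 * j))))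
        ≤ (2 * C9 ^ ((3 : ℝ) / 4) + 4) * (1 / 2) ^ k0 := by
      have h7 : ∀ j ∈ Finset.Ico k0 (k0 + n), (∫ s in τ..t,
          (2 ^ (2 * j) * B j s ^ ((3 : ℝ) / 4) + s ^ (-κ) * (1 / 2 ^ (15 * j))))
          ≤ (C9 ^ ((3 : ℝ) / 4) + 2) * (1 / 2) ^ j := by
        intro j hj
        have k1 : IntervalIntegrable (fun s => 2 ^ (2 * j) * B j s ^ ((3 : ℝ) / 4)) volume τ t :=
          hII (continuousOn_const.mul (hB34 j))
        have k2 : IntervalIntegrable (fun s : ℝ => s ^ (-κ) * (1 / 2 ^ (15 * j))) volume τ t :=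
          hII (hp2.mul continuousOn_const)
        rw [intervalIntegral.integral_add k1 k2, intervalIntegral.integral_const_mul,
          intervalIntegral.integral_mul_const]
        have b1 : (∫ s in τ..t, B j s ^ ((3 : ℝ) / 4)) ≤ (C9 / 2 ^ (4 * j)) ^ ((3 : ℝ) / 4) :=
          (hb34 j).trans (Real.rpow_le_rpow (hbnn j) (hlamb j hj) (by norm_num))
        have b2 : (C9 / 2 ^ (4 * j)) ^ ((3 : ℝ) / 4) = C9 ^ ((3 : ℝ) / 4) / 2 ^ (3 * j) := by
          rw [Real.div_rpow hC9.le (by positivity)]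
          congr 1
          rw [← Real.rpow_natCast, ← Real.rpow_natCast, ← Real.rpow_mul (by norm_num)]
          congr 1
          push_cast
          ring
        have b3 : (2 : ℝ) ^ (2 * j) * (C9 ^ ((3 : ℝ) / 4) / 2 ^ (3 * j))
            = C9 ^ ((3 : ℝ) / 4) * (1 / 2) ^ j := by
          have : (2 : ℝ) ^ (3 * j) = 2 ^ (2 * j) * 2 ^ j := by
            rw [← pow_add]; congr 1; ring
          rw [this, one_div, inv_pow]
          field_simp
        have b4 : (∫ s in τ..t, s ^ (-κ)) ≤ 2 := by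
          have e1 : (fun s : ℝ => s ^ (-κ)) = fun s : ℝ => s ^ ((1 - κ) - 1) := by
            funext s
            congr 1
            ring
          rw [e1]
          refine (int_rpow hτ hτt (by linarith : 0 < 1 - κ)).trans ?_
          rw [div_le_iff₀ (by linarith)]
          have := Real.rpow_le_one ht0.le ht1 (by linarith : 0 ≤ 1 - κ)
          linarith
        have b5 : (1 : ℝ) / 2 ^ (15 * j) ≤ (1 / 2) ^ j := by
          rw [one_div, one_div, inv_pow]
          apply inv_anti₀ (by positivity)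
          apply pow_le_pow_right₀ (by norm_num)
          omega
        have b6 : (0 : ℝ) < 1 / 2 ^ (15 * j) := by positivity
        calc 2 ^ (2 * j) * (∫ s in τ..t, B j s ^ ((3 : ℝ) / 4))
              + (∫ s in τ..t, s ^ (-κ)) * (1 / 2 ^ (15 * j))
            ≤ 2 ^ (2 * j) * (C9 ^ ((3 : ℝ) / 4) / 2 ^ (3 * j)) + 2 * (1 / 2) ^ j := by
              apply add_le_add
              · rw [← b2]
                exact mul_le_mul_of_nonneg_left b1 (by positivity)
              · exact mul_le_mul b4 b5 b6.le (by norm_num)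
          _ = _ := by rw [b3]; ring
      refine (Finset.sum_le_sum h7).trans ?_
      rw [← Finset.mul_sum]
      have h8 := sum_geom k0 n
      have h9 : 0 < C9 ^ ((3 : ℝ) / 4) := Real.rpow_pos_of_pos hC9 _
      calc (C9 ^ ((3 : ℝ) / 4) + 2) * ∑ j ∈ Finset.Ico k0 (k0 + n), (1 / 2 : ℝ) ^ j
          ≤ (C9 ^ ((3 : ℝ) / 4) + 2) * (2 * (1 / 2) ^ k0) :=
            mul_le_mul_of_nonneg_left h8 (by positivity)
        _ = _ := by ring
    have hCp : 0 < C := by linarith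
    have c1 := mul_le_mul_of_nonneg_left (add_le_add a1 a2) hCp.le
    have c2 := mul_le_mul_of_nonneg_left (add_le_add a3 hD2) hCp.le
    have c3 := mul_le_mul_of_nonneg_left a4 hCp.le
    linarith
  have hτκ : τ ^ κ ≤ t ^ κ := Real.rpow_le_rpow hτ.le hτt hκ.le
  have e1 := (abs_le.mp h5t).1
  have e2 := (abs_le.mp h5τ).2
  rw [← hJ] at hkey
  have hCp : 0 < C := by linarith
  have e3 := mul_le_mul_of_nonneg_left hτκ hCp.le
  have htκ : 0 < t ^ κ := Real.rpow_pos_of_pos ht0 _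
  have h2k : (0 : ℝ) < (1 / 2) ^ k0 := by positivity
  have h9 : 0 < C9 ^ ((3 : ℝ) / 4) := Real.rpow_pos_of_pos hC9 _
  have p1 : 0 ≤ C * (2 * C9 ^ ((3 : ℝ) / 4) + 4) * t ^ κ := by positivity
  have p2 : 0 ≤ C * (3 + 1 / (2 * κ) + 7 / (3 * κ) + CD) * (1 / 2) ^ k0 := by positivity
  nlinarith

end Pool.Agent.Helper32.KV
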