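import Pool.Agent.Helper48.KV.GoalsJ
import Pool.Agent.Helper16.KV.F_CONTQ

/-!
# PROJECT KV (MP_66be51_an), packet JSTEP, facts at one time
-/

open MeasureTheory Set Filter Topology

namespace Pool.Agent.Helper32.KV

open Pool.Agent.Helper33.KV Pool.Agent.Helper41.KV Pool.Agent.Helper48.KV

/-- bounded continuous times integrable -/
theorem int_bdd {b f : ℝ → ℝ} {C : ℝ} (hb : Continuous b) (hC : ∀ x, |b x| ≤ C)
    (hf : Integrable f) : Integrable (fun x => b x * f x) := by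
  refine (hf.const_mul C).mono (hb.aestronglyMeasurable.mul hf.aestronglyMeasurable)
    (Eventually.of_forall fun x => ?_)
  rw [norm_mul, norm_mul, Real.norm_eq_abs, Real.norm_eq_abs C]
  exact mul_le_mul_of_nonneg_right ((hC x).trans (le_abs_self C)) (norm_nonneg _)

theorem HI_sq {f : ℝ → ℝ} (hf : HI f) : Integrable (fun x => f x ^ 2) := by
  have := (hf.2 0).integrable_sq
  simpa only [iteratedDeriv_zero] using this

theorem HI_dsq {f : ℝ → ℝ} (hf : HI f) : Integrable (fun x => deriv f x ^ 2) := by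
  have := (hf.2 1).integrable_sq
  simpa only [iteratedDeriv_one] using this

theorem HI_cont {f : ℝ → ℝ} (hf : HI f) : Continuous f := hf.1.continuous

theorem HI_dcont {f : ℝ → ℝ} (hf : HI f) : Continuous (deriv f) :=
  hf.1.continuous_deriv (by simp)

/-- continuity in time of weighted quadratic quantities, weights bounded and continuous -/
theorem wcont {t1 t2 M : ℝ} {W w wt : ℝ → ℝ → ℝ} (k : ℕ)
    (hW : ∀ t ∈ Icc t1 t2, Continuous (W t)) (hM : ∀ t ∈ Icc t1 t2, ∀ x, |W t x| ≤ M)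
    (hWt : ∀ x, ContinuousOn (fun t => W t x) (Icc t1 t2)) (hw : HInf w t1 t2)
    (hwt : HInf wt t1 t2) (hd : HasTimeDeriv w wt t1 t2) :
    ContinuousOn (fun t => ∫ x, W t x * iteratedDeriv k (w t) x ^ 2) (Icc t1 t2) := by
  obtain ⟨C, hC⟩ : ∃ C, C = max M 1 := ⟨_, rfl⟩
  have hC1 : 1 ≤ C := hC ▸ le_max_right _ _
  have hCp : 0 < C := by linarith
  have hc2 := Pool.Agent.Helper16.KV.C2_hinf hw hwt hd k
  have h3 : Pool.Agent.Helper16.KV.C2 (fun t y => (W t y / C) * iteratedDeriv k (w t) y)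
      (Icc t1 t2) := by
    refine hc2.bdd (w := fun t y => W t y / C) ?_ ?_ ?_
    · intro t ht
      exact (hW t ht).div_const C
    · intro t ht y
      rw [abs_div, abs_of_pos hCp, div_le_one hCp]
      exact (hM t ht y).trans (hC ▸ le_max_left _ _)
    · intro s hs y
      exact (hWt y s hs).div_const C
  have h6 := (h3.bilin hc2).const_smul C
  refine h6.congr fun t ht => ?_
  simp only [Pi.smul_apply, smul_eq_mul]
  rw [← integral_const_mul]
  refine integral_congr_ae (Eventually.of_forall fun y => ?_)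
  simp only
  field_simp

theorem kq_pos {q : ℕ} (hq : 2 ≤ q) : 0 < kq q := by
  unfold kq
  have : (0 : ℝ) < q := by exact_mod_cast (by omega : 0 < q)
  positivity

theorem kq_le {q : ℕ} (hq : 2 ≤ q) : kq q ≤ 1 / 10 := by
  unfold kq
  have : (2 : ℝ) ≤ q := by exact_mod_cast hq
  apply one_div_le_one_div_of_le (by norm_num)
  linarith

theorem wt_pos {K ρ y : ℝ} (hρ : 0 < ρ) : 0 < wt K ρ y ∧ wt K ρ y ≤ 1 := by
  unfold wt
  have h := Real.exp_pos (-(y / K))
  constructor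
  · positivity
  · rw [div_le_one (by positivity)]
    nlinarith

theorem wt_cont (K ρ : ℝ) (hρ : 0 < ρ) : Continuous (wt K ρ) := by
  unfold wt
  refine Continuous.div continuous_const (by fun_prop) fun y => ?_
  have h := Real.exp_pos (-(y / K))
  positivity

theorem ph1_nonneg {K ρ y : ℝ} (hK : 0 < K) (hρ : 0 < ρ) : 0 ≤ ph1 K ρ y := by
  unfold ph1
  obtain ⟨h1, h2⟩ := wt_pos (K := K) (y := y) hρ
  have : 0 ≤ 1 - wt K ρ y := by linarith
  positivity

theorem ph1_le {K ρ y : ℝ} (hK : 1 ≤ K) (hρ : 0 < ρ) : ph1 K ρ y ≤ 1 := by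
  unfold ph1
  obtain ⟨h1, h2⟩ := wt_pos (K := K) (y := y) hρ
  rw [div_le_one (by linarith)]
  nlinarith

theorem Dn_nonneg {K ρ : ℝ} (hK : 0 < K) (hρ : 0 < ρ) (e : ℝ → ℝ) : 0 ≤ Dn K ρ e := by
  unfold Dn
  refine integral_nonneg fun y => ?_
  have := ph1_nonneg (y := y) hK hρ
  positivity

/-- weighted norms at one time -/
theorem hcqc {α K κ r s M1 M2 A : ℝ} {z : ℝ → ℝ} (hJW : S_JW) (hz : IsZ z A) (hκ : 0 < κ)
    (hκ1 : κ ≤ 1 / 4) (hr : 0 < r) (hs : 0 < s) (hc0 : ∀ x, 0 ≤ cJ α K s x)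
    (hcc : Continuous (cJ α K s)) (hpc : Continuous (pJ α K κ r z s))
    (hqc : Continuous (qJ α K κ r z s)) (hM1 : ∀ x, |pJ α K κ r z s x| ≤ M1)
    (hM2 : ∀ x, |qJ α K κ r z s x| ≤ M2) {w : ℝ → ℝ} (hw : HI w) :
    Integrable (fun x => pJ α K κ r z s x * w x ^ 2) ∧
    Integrable (fun x => qJ α K κ r z s x * deriv w x ^ 2) ∧
    Integrable (fun x => cJ α K s x * hJ κ r s (z x) * w x ^ 2) ∧
    Integrable (fun x => cJ α K s x * QJ κ r s (z x) * deriv w x ^ 2) ∧
    0 ≤ Hc α K κ r z s w ∧ 0 ≤ Qc α K κ r z s w ∧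
    (1 - κ) * (Hc α K κ r z s w + Qc α K κ r z s w) ≤ Jqf α K κ r z s w := by
  have hz0 : ∀ x, 0 < z x := fun x => by have := hz.ge x; linarith
  have hzc : Continuous z := hz.smooth.continuous
  have i1 := int_bdd hpc hM1 (HI_sq hw)
  have i2 := int_bdd hqc hM2 (HI_dsq hw)
  have hhc : Continuous (fun x => hJ κ r s (z x)) := continuous_iff_continuousAt.2 fun x =>
    ((hJW κ r s (z x) hκ hκ1 hr hs (hz0 x)).1.continuousAt).comp hzc.continuousAt
  have hQc : Continuous (fun x => QJ κ r s (z x)) := continuous_iff_continuousAt.2 fun x =>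
    ((hJW κ r s (z x) hκ hκ1 hr hs (hz0 x)).2.1.continuousAt).comp hzc.continuousAt
  have hP : ∀ x, (1 - κ) * (cJ α K s x * hJ κ r s (z x) * w x ^ 2)
      ≤ pJ α K κ r z s x * w x ^ 2 := by
    intro x
    obtain ⟨_, _, _, _, _, _, hP1, _⟩ := hJW κ r s (z x) hκ hκ1 hr hs (hz0 x)
    unfold pJ
    have h2 := mul_le_mul_of_nonneg_right hP1 (mul_nonneg (hc0 x) (sq_nonneg (w x)))
    linarith
  have hh0 : ∀ x, 0 ≤ cJ α K s x * hJ κ r s (z x) * w x ^ 2 := by
    intro x
    obtain ⟨_, _, _, _, _, hpos, _⟩ := hJW κ r s (z x) hκ hκ1 hr hs (hz0 x)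
    have := hc0 x
    positivity
  have hq0 : ∀ x, 0 ≤ cJ α K s x * QJ κ r s (z x) * deriv w x ^ 2 := by
    intro x
    obtain ⟨_, _, _, _, _, _, _, _, hpos, _⟩ := hJW κ r s (z x) hκ hκ1 hr hs (hz0 x)
    have := hc0 x
    positivity
  have i3 : Integrable (fun x => cJ α K s x * hJ κ r s (z x) * w x ^ 2) := by
    refine (i1.const_mul (1 / (1 - κ))).mono'
      (((hcc.mul hhc).mul ((HI_cont hw).pow 2)).aestronglyMeasurable)
      (Eventually.of_forall fun x => ?_)
    rw [Real.norm_eq_abs, abs_of_nonneg (hh0 x)]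
    have h1κ : 0 < 1 - κ := by linarith
    rw [one_div, ← div_eq_inv_mul, le_div_iff₀ h1κ]
    have := hP x
    linarith
  have i4 : Integrable (fun x => cJ α K s x * QJ κ r s (z x) * deriv w x ^ 2) := by
    refine i2.congr (Eventually.of_forall fun x => ?_)
    simp only [qJ]
    ring
  have n1 : 0 ≤ Hc α K κ r z s w := integral_nonneg hh0
  have n2 : 0 ≤ Qc α K κ r z s w := integral_nonneg hq0
  refine ⟨i1, i2, i3, i4, n1, n2, ?_⟩
  have e1 : (1 - κ) * Hc α K κ r z s w ≤ ∫ x, pJ α K κ r z s x * w x ^ 2 := by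
    unfold Hc
    rw [← integral_const_mul]
    exact integral_mono (i3.const_mul _) i1 hP
  have e2 : Qc α K κ r z s w = ∫ x, qJ α K κ r z s x * deriv w x ^ 2 := by
    unfold Qc
    refine integral_congr_ae (Eventually.of_forall fun x => ?_)
    simp only [qJ]
    ring
  unfold Jqf
  rw [integral_add i1 i2, ← e2]
  nlinarith

/-- the functional and its quadratic part -/
theorem fdiff {α K κ r s M1 M2 A : ℝ} {z : ℝ → ℝ} (hJW : S_JW) (hALG : S_ALG) (hz : IsZ z A)
    (hκ : 0 < κ) (hκ1 : κ ≤ 1 / 4) (hr : 0 < r) (hs : 0 < s) (hc0 : ∀ x, 0 ≤ cJ α K s x)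
    (hcc : Continuous (cJ α K s)) (hpc : Continuous (pJ α K κ r z s))
    (hqc : Continuous (qJ α K κ r z s)) (hM1 : ∀ x, |pJ α K κ r z s x| ≤ M1)
    (hM2 : ∀ x, |qJ α K κ r z s x| ≤ M2) {g w : ℝ → ℝ → ℝ} (hw : HI (w s))
    (hg : ∀ x, |g s x| ≤ 1)
    (hd : Integrable (fun x => dens (pJ α K κ r z s x) (qJ α K κ r z s x) (g s x) (w s x)
      (deriv (w s) x)))
    (h6 : Integrable (fun x => cJ α K s x * QJ κ r s (z x) * w s x ^ 6)) :
    |fun2 (pJ α K κ r z) (qJ α K κ r z) g w s - Jqf α K κ r z s (w s)| ≤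
      20 * (s * Hc α K κ r z s (w s)) + 20 * ∫ x, cJ α K s x * QJ κ r s (z x) * w s x ^ 6 := by
  obtain ⟨i1, i2, i3, i4, n1, n2, _⟩ := hcqc hJW hz hκ hκ1 hr hs hc0 hcc hpc hqc hM1 hM2 hw
  have hz0 : ∀ x, 0 < z x := fun x => by have := hz.ge x; linarith
  have i12 : Integrable (fun x => pJ α K κ r z s x * w s x ^ 2
      + qJ α K κ r z s x * deriv (w s) x ^ 2) := i1.add i2
  have e1 : fun2 (pJ α K κ r z) (qJ α K κ r z) g w s - Jqf α K κ r z s (w s)
      = ∫ x, -(qJ α K κ r z s x * nGG (g s x) (w s x) / 3) := by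
    unfold fun2 Jqf
    rw [← integral_sub hd i12]
    refine integral_congr_ae (Eventually.of_forall fun x => ?_)
    simp only [dens]
    ring
  rw [e1]
  have i5 : Integrable (fun x => 20 * (s * (cJ α K s x * hJ κ r s (z x) * w s x ^ 2))
      + 20 * (cJ α K s x * QJ κ r s (z x) * w s x ^ 6)) :=
    ((i3.const_mul s).const_mul 20).add (h6.const_mul 20)
  have hle : ‖∫ x, -(qJ α K κ r z s x * nGG (g s x) (w s x) / 3)‖ ≤
      ∫ x, (20 * (s * (cJ α K s x * hJ κ r s (z x) * w s x ^ 2))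
      + 20 * (cJ α K s x * QJ κ r s (z x) * w s x ^ 6)) := by
    refine norm_integral_le_of_norm_le i5 (Eventually.of_forall fun x => ?_)
    obtain ⟨_, _, _, _, _, hpos, _, _, Qpos, Qle, _⟩ := hJW κ r s (z x) hκ hκ1 hr hs (hz0 x)
    have hc := hc0 x
    have hq0 : 0 ≤ qJ α K κ r z s x := by
      unfold qJ
      positivity
    rw [norm_neg, Real.norm_eq_abs, abs_div, abs_mul, abs_of_nonneg hq0,
      abs_of_pos (by norm_num : (0 : ℝ) < 3)]
    have hG := (hALG (g s x) (w s x)).1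
    have hg4 : g s x ^ 4 ≤ 1 := by
      rw [← (by norm_num : Even 4).pow_abs]
      exact pow_le_one₀ (abs_nonneg _) (hg x)
    have hG2 : |nGG (g s x) (w s x)| ≤ 60 * (w s x ^ 2 + w s x ^ 6) := by
      refine hG.trans ?_
      have : g s x ^ 4 * w s x ^ 2 ≤ w s x ^ 2 := by
        nlinarith [sq_nonneg (w s x)]
      linarith
    have hQ2 : QJ κ r s (z x) ≤ s * hJ κ r s (z x) := by
      refine Qle.trans ?_
      have hz100 := hz.ge x
      have : 3 * κ * s / z x ≤ s := by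
        rw [div_le_iff₀ (hz0 x)]
        nlinarith
      exact mul_le_mul_of_nonneg_right this hpos.le
    have a1 : qJ α K κ r z s x * |nGG (g s x) (w s x)| / 3
        ≤ 20 * (qJ α K κ r z s x * (w s x ^ 2 + w s x ^ 6)) := by
      have := mul_le_mul_of_nonneg_left hG2 hq0
      linarith
    refine a1.trans ?_
    have a2 : qJ α K κ r z s x * w s x ^ 2 ≤ s * (cJ α K s x * hJ κ r s (z x) * w s x ^ 2) := by
      unfold qJ
      have := mul_le_mul_of_nonneg_right hQ2 (mul_nonneg hc (sq_nonneg (w s x)))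
      linarith
    have a3 : qJ α K κ r z s x * w s x ^ 6 = cJ α K s x * QJ κ r s (z x) * w s x ^ 6 := by
      unfold qJ
      ring
    linarith
  rw [← Real.norm_eq_abs]
  refine hle.trans (le_of_eq ?_)
  rw [integral_add ((i3.const_mul s).const_mul 20) (h6.const_mul 20), integral_const_mul,
    integral_const_mul, integral_const_mul]
  rfl

end Pool.Agent.Helper32.KV
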